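import Pool.Agent.Helper537_All.Zpart
set_option autoImplicit false

/-!
The involution acts by `-1` on the unramified classes.
-/

namespace Pool.Agent.Helper537_All

open scoped WithZero
open Polynomial
open Pool.Agent.TH826.MK (KQ symb unitPart Unramified)
open Pool.Agent.TH826.HD
open Pool.Agent.Helper537_Sym

variable {F : ℚ[X]} {L : Type*} [Field L] [Algebra (PRing F) L] [IsFractionRing (PRing F) L]

theorem zinv_eq : (((zF F L)⁻¹ : Lˣ) : L) = eP F L F - zF F L := by
  rw [← zF_add_inv]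
  ring

/-- The elements of the field in the form `(P + Q z) / N`. -/
theorem exists_form (l : L) : ∃ P Q N : ℚ[X], N ≠ 0 ∧
    l * eP F L N = eP F L P + eP F L Q * zF F L := by
  have hnt : Nontrivial (PRing F) := (algebraMap (PRing F) L).domain_nontrivial
  obtain ⟨a, a', ha', rfl⟩ := IsFractionRing.div_surjective (PRing F) l
  obtain ⟨P, Q, rfl⟩ := exists_el a
  obtain ⟨P', Q', rfl⟩ := exists_el a'
  have hne : algebraMap (PRing F) L (el F P' Q') ≠ 0 := by
    rw [Ne, map_eq_zero_iff _ (IsFractionRing.injective (PRing F) L)]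
    exact nonZeroDivisors.ne_zero ha'
  have hne2 : eP F L P' + eP F L Q' * ((zF F L)⁻¹ : Lˣ) ≠ 0 := by
    rw [← tau_el]
    intro h
    apply hne
    have h2 : el F P' Q' = 0 := (injective_iff_map_eq_zero _).1 tau_inj _ h
    rw [h2, map_zero]
  have hq := zF_quad (F := F) (L := L)
  -- the norm of the denominator
  have hN : eP F L (P' ^ 2 + P' * Q' * F + Q' ^ 2) =
      (eP F L P' + eP F L Q' * zF F L) * (eP F L P' + eP F L Q' * ((zF F L)⁻¹ : Lˣ)) := by
    rw [zinv_eq]
    simp only [map_add, map_mul, map_pow]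
    linear_combination (eP F L Q') ^ 2 * hq
  rw [alg_el] at hne
  refine ⟨P * P' + P * Q' * F + Q * Q', Q * P' - P * Q', P' ^ 2 + P' * Q' * F + Q' ^ 2, ?_, ?_⟩
  · intro h0
    rw [h0, map_zero] at hN
    exact mul_ne_zero hne hne2 hN.symm
  · rw [alg_el, alg_el, hN, ← mul_assoc, div_mul_cancel₀ _ hne, zinv_eq]
    simp only [map_add, map_mul, map_sub]
    linear_combination (-(eP F L Q) * (eP F L Q')) * hq

variable (F) in
/-- The norm of a function. -/
noncomputable def nrm (u : Lˣ) : Lˣ := u * Units.map (sig F L : L →* L) u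

theorem nrm_form (u : Lˣ) : ∃ P R : ℚ[X], P ≠ 0 ∧ R ≠ 0 ∧
    nrm F u = pu (eP F L) P * (pu (eP F L) R)⁻¹ := by
  obtain ⟨P, Q, N, hN, h⟩ := exists_form (F := F) (u : L)
  have hq := zF_quad (F := F) (L := L)
  have h2 : sig F L (u : L) * eP F L N = eP F L P + eP F L Q * ((zF F L)⁻¹ : Lˣ) := by
    have h3 := congrArg (sig F L) h
    rw [map_mul, map_add, map_mul, sig_eP, sig_eP, sig_eP, sig_z] at h3
    exact h3
  have h3 : (nrm F u : L) * eP F L (N ^ 2) = eP F L (P ^ 2 + P * Q * F + Q ^ 2) := by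
    have h4 : (nrm F u : L) = u * sig F L (u : L) := rfl
    rw [h4]
    have h5 : (u : L) * sig F L u * eP F L (N ^ 2) =
        (u * eP F L N) * (sig F L u * eP F L N) := by
      rw [map_pow]
      ring
    rw [h5, h, h2, zinv_eq]
    simp only [map_add, map_mul, map_pow]
    linear_combination (-(eP F L Q) ^ 2) * hq
  have hN2 : N ^ 2 ≠ 0 := pow_ne_zero 2 hN
  have hP : P ^ 2 + P * Q * F + Q ^ 2 ≠ 0 := by
    intro h0
    rw [h0, map_zero] at h3
    exact mul_ne_zero (nrm F u).ne_zero (e_ne eP_inj hN2) h3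
  refine ⟨_, _, hP, hN2, ?_⟩
  rw [eq_mul_inv_iff_mul_eq]
  apply Units.ext
  rw [Units.val_mul, pu_val eP_inj hN2, pu_val eP_inj hP, h3]

/-- The classes `κ` with `κ + σ κ` in the space of the symbols of polynomials. -/
noncomputable def Mb : Submodule ℚ (KQ L 2) :=
  (Bs F L).comap (LinearMap.id + KQ.map 2 (sig F L))

theorem mem_Mb {κ : KQ L 2} : κ ∈ Mb (F := F) ↔ κ + KQ.map 2 (sig F L) κ ∈ Bs F L := Iff.rfl

theorem sy_pu_mem {P : ℚ[X]} (hP : P ≠ 0) (u : Lˣ) : sy (pu (eP F L) P) u ∈ Mb (F := F) := by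
  rw [mem_Mb, map_sy', sig_pu hP, ← sy_mul_right]
  obtain ⟨A, B, hA, hB, h⟩ := nrm_form (F := F) u
  have h1 : u * Units.map (sig F L : L →* L) u = pu (eP F L) A * (pu (eP F L) B)⁻¹ := h
  rw [h1, sy_mul_right, sy_inv_right]
  exact Submodule.add_mem _ (Submodule.subset_span ⟨P, A, hP, hA, rfl⟩)
    (Submodule.neg_mem _ (Submodule.subset_span ⟨P, B, hP, hB, rfl⟩))

theorem sy_pu_mem' {P : ℚ[X]} (hP : P ≠ 0) (u : Lˣ) : sy u (pu (eP F L) P) ∈ Mb (F := F) :=
  swap_mem (sy_pu_mem hP u)

theorem sy_mem_Mb (a u : Lˣ) : sy a u ∈ Mb (F := F) := by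
  obtain ⟨P, Q, N, hN, h⟩ := exists_form (F := F) (a : L)
  obtain ⟨P', Q', N', hN', h'⟩ := exists_form (F := F) (u : L)
  set A : Lˣ := a * pu (eP F L) N with hA
  set U : Lˣ := u * pu (eP F L) N' with hU
  have hAv : (A : L) = eP F L P + eP F L Q * zF F L := by
    rw [hA, Units.val_mul, pu_val eP_inj hN, h]
  have hUv : (U : L) = eP F L P' + eP F L Q' * zF F L := by
    rw [hU, Units.val_mul, pu_val eP_inj hN', h']
  clear_value A U
  have key : sy A U ∈ Mb (F := F) := by
    by_cases hQ : Q = 0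
    · have hP : P ≠ 0 := by
        rintro rfl
        rw [hQ, map_zero, zero_mul, add_zero] at hAv
        exact A.ne_zero hAv
      have : A = pu (eP F L) P := by
        apply Units.ext
        rw [hAv, hQ, map_zero, zero_mul, add_zero, pu_val eP_inj hP]
      rw [this]
      exact sy_pu_mem hP U
    by_cases hQ' : Q' = 0
    · have hP' : P' ≠ 0 := by
        rintro rfl
        rw [hQ', map_zero, zero_mul, add_zero] at hUv
        exact U.ne_zero hUv
      have : U = pu (eP F L) P' := by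
        apply Units.ext
        rw [hUv, hQ', map_zero, zero_mul, add_zero, pu_val eP_inj hP']
      rw [this]
      exact sy_pu_mem' hP' A
    by_cases hD : P * Q' - P' * Q = 0
    · have h1 : A * pu (eP F L) Q' = U * pu (eP F L) Q := by
        apply Units.ext
        rw [Units.val_mul, Units.val_mul, pu_val eP_inj hQ, pu_val eP_inj hQ', hAv, hUv]
        have h2 := congrArg (eP F L) hD
        rw [map_sub, map_mul, map_mul, map_zero] at h2
        linear_combination h2
      have h2 : A = U * pu (eP F L) Q * (pu (eP F L) Q')⁻¹ := by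
        rw [← h1, mul_inv_cancel_right]
      rw [h2, sy_mul_left, sy_mul_left, sy_self, zero_add, sy_inv_left]
      exact Submodule.add_mem _ (sy_pu_mem hQ U) (Submodule.neg_mem _ (sy_pu_mem hQ' U))
    · set D : Lˣ := pu (eP F L) (P * Q' - P' * Q) with hDdef
      have hDv : (D : L) = eP F L P * eP F L Q' - eP F L P' * eP F L Q := by
        rw [hDdef, pu_val eP_inj hD, map_sub, map_mul, map_mul]
      have h1 : sy (A * pu (eP F L) Q' * D⁻¹) (-(U * pu (eP F L) Q) * D⁻¹) = 0 := by
        apply sy_steinberg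
        rw [Units.val_mul (A * _), Units.val_mul (-(U * _)), ← add_mul,
          Units.val_inv_eq_inv_val, ← div_eq_mul_inv, div_eq_one_iff_eq D.ne_zero, Units.val_neg,
          Units.val_mul, Units.val_mul, pu_val eP_inj hQ, pu_val eP_inj hQ', hAv, hUv, hDv]
        ring
      rw [sy_mul_left, sy_mul_left, sy_mul_right A, sy_neg_right, sy_mul_right A] at h1
      have h2 : sy A U = -(sy A (pu (eP F L) Q) + sy A D⁻¹ +
          sy (pu (eP F L) Q') (-(U * pu (eP F L) Q) * D⁻¹) +
          sy D⁻¹ (-(U * pu (eP F L) Q) * D⁻¹)) := by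
        rw [eq_neg_iff_add_eq_zero, ← h1]
        abel
      rw [h2]
      refine Submodule.neg_mem _ (Submodule.add_mem _ (Submodule.add_mem _
        (Submodule.add_mem _ (sy_pu_mem' hQ A) ?_) (sy_pu_mem hQ' _)) ?_)
      · rw [sy_inv_right]
        exact Submodule.neg_mem _ (sy_pu_mem' hD A)
      · rw [sy_inv_left]
        exact Submodule.neg_mem _ (sy_pu_mem hD _)
  rw [hA, hU, sy_mul_left, sy_mul_right, sy_mul_right] at key
  have h1 : sy a u = (sy a u + sy a (pu (eP F L) N') + (sy (pu (eP F L) N) u +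
      sy (pu (eP F L) N) (pu (eP F L) N'))) - (sy a (pu (eP F L) N') + (sy (pu (eP F L) N) u +
      sy (pu (eP F L) N) (pu (eP F L) N'))) := by abel
  rw [h1]
  exact Submodule.sub_mem _ key (Submodule.add_mem _ (sy_pu_mem' hN' a)
    (Submodule.add_mem _ (sy_pu_mem hN u) (sy_pu_mem hN _)))

theorem all_mem_Mb (κ : KQ L 2) : κ ∈ Mb (F := F) := by
  obtain ⟨z, hz⟩ := Submodule.mkQ_surjective _ κ
  have key : ∀ z : (Fin 2 → Lˣ) →₀ ℚ, KQ.mkQ z ∈ Mb (F := F) (L := L) := by
    intro z
    induction z using Finsupp.induction_linear with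
    | zero => rw [map_zero]; exact Submodule.zero_mem _
    | add z w hz hw => rw [map_add]; exact Submodule.add_mem _ hz hw
    | single a q =>
      have e : Finsupp.single a q = q • Finsupp.single a (1 : ℚ) := by simp
      rw [e, map_smul]
      refine Submodule.smul_mem _ _ ?_
      show symb a ∈ Mb (F := F) (L := L)
      rw [eq_cons a]
      exact sy_mem_Mb _ _
  have h4 : KQ.mkQ z = κ := hz
  rw [← h4]
  exact key z

/-- The involution acts by `-1` on the unramified classes. -/
theorem unr_sig {κ : KQ L 2} (h : κ ∈ Unramified L 2) : KQ.map 2 (sig F L) κ = -κ := by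
  have h1 := all_mem_Mb (F := F) κ
  rw [mem_Mb] at h1
  have h2 : κ + KQ.map 2 (sig F L) κ ∈ Unramified L 2 :=
    Submodule.add_mem _ h (sig_unr (F := F) h)
  obtain ⟨d, hd⟩ := bs_md h1
  have h3 := md_unr eP_inj (fun π => hval π) d _ hd h2
  exact (neg_eq_of_add_eq_zero_right h3).symm

end Pool.Agent.Helper537_All
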