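import Pool.Agent.Helper537_All.Tate2
set_option autoImplicit false

/-!
Symbols of polynomials in one variable over `ℚ`: unramified combinations vanish.
-/

namespace Pool.Agent.Helper537_All

open scoped WithZero
open Polynomial
open Pool.Agent.TH826.MK (KQ symb unitPart Unramified)
open Pool.Agent.Helper537_Sym

variable {L : Type*} [Field L] {e : ℚ[X] →+* L} {d : ℕ}

/-- An additive function on the units modulo `π` gives a functional. -/
theorem exists_lg_pi (he : Function.Injective e) (π : Ir d) {v : Valuation L ℤᵐ⁰}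
    (hv : ∀ q : ℚ, q ≠ 0 → v (ec e q) = 1) (hπ : v (e π.1) < 1) (χ : (AdjoinRoot π.1)ˣ → ℚ)
    (hχ : ∀ a b, χ (a * b) = χ a + χ b) :
    ∃ l : Lg L, (∀ a : Lˣ, v ((a : L) - 1) < 1 → l.toFun a = 0) ∧
      ∀ u, l.toFun (pu e (rep π u)) = χ u := by
  have : Fact (Irreducible π.1) := ⟨π.2.2.1⟩
  have hle := ve_le hv π.2.1 hπ
  have h0 : (π.1).eval₂ ((rho v hle).comp C) (rho v hle X) = 0 := by
    have h1 : (π.1).eval₂ ((rho v hle).comp C) (rho v hle X) = rho v hle π.1 := by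
      rw [← hom_eval₂, eval₂_C_X]
    rw [h1, rho_eq_zero]
    exact hπ
  set φ : AdjoinRoot π.1 →+* RF v := AdjoinRoot.lift _ _ h0 with hφ
  have hφm : ∀ P, φ (AdjoinRoot.mk π.1 P) = rho v hle P := by
    intro P
    rw [hφ, AdjoinRoot.lift_mk, ← hom_eval₂, eval₂_C_X]
  obtain ⟨χ', h1, h2⟩ := exists_extend (Units.map (φ : AdjoinRoot π.1 →* RF v))
    (Units.map_injective φ.injective) χ hχ
  obtain ⟨l, h3, h4⟩ := exists_lg_res v χ' h1
  refine ⟨l, h3, fun u => ?_⟩
  have hnd : ¬ π.1 ∣ rep π u := by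
    intro h5
    have h6 := natDegree_le_of_dvd h5 (rep_ne π u)
    rw [π.2.2.2] at h6
    exact absurd (rep_lt π u) (not_lt.2 h6)
  have h5 : v ((pu e (rep π u) : Lˣ) : L) = 1 := by
    rw [pu_val he (rep_ne π u)]
    exact ve_one hv π.2.1 π.2.2.1 hπ hnd
  rw [h4 _ h5, ← h2]
  congr 1
  apply Units.ext
  rw [ru_val, Units.coe_map]
  show _ = φ (u : AdjoinRoot π.1)
  rw [← rep_mk π u, hφm, rho_apply]
  congr 1
  exact Subtype.ext (pu_val he (rep_ne π u))

theorem ord_pu_zero (he : Function.Injective e) (π : Ir d) {v : Valuation L ℤᵐ⁰}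
    (hv : ∀ q : ℚ, q ≠ 0 → v (ec e q) = 1) (hπ : v (e π.1) < 1) {P : ℚ[X]} (hP : P ≠ 0)
    (hd : ¬ π.1 ∣ P) : ord v (pu e P) = 0 :=
  ord_of_one (by
    rw [pu_val he hP]
    exact ve_one hv π.2.1 π.2.2.1 hπ hd)

theorem not_dvd_of_lt (π : Ir d) {P : ℚ[X]} (hP : P ≠ 0) (h : P.natDegree < d) :
    ¬ π.1 ∣ P := by
  intro h5
  have h6 := natDegree_le_of_dvd h5 hP
  rw [π.2.2.2] at h6
  exact absurd h (not_lt.2 h6)

theorem tame_md (he : Function.Injective e) (π : Ir d) {v : Valuation L ℤᵐ⁰}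
    (hv : ∀ q : ℚ, q ≠ 0 → v (ec e q) = 1) (hπ : v (e π.1) < 1) (l : Lg L)
    (hl : ∀ a : Lˣ, v ((a : L) - 1) < 1 → l.toFun a = 0) {s : KQ L 2} (hs : s ∈ Md e d) :
    tame v l hl s = 0 := by
  have h : Md e d ≤ LinearMap.ker (tame v l hl) := by
    unfold Md
    rw [Submodule.span_le]
    rintro _ ⟨P, Q, hP, hQ, hPd, hQd, rfl⟩
    show tame v l hl _ = 0
    rw [tame_sy, ord_pu_zero he π hv hπ hP (not_dvd_of_lt π hP hPd),
      ord_pu_zero he π hv hπ hQ (not_dvd_of_lt π hQ hQd)]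
    simp
  exact h hs

theorem md_unr (he : Function.Injective e)
    (hval : ∀ π : ℚ[X], π.Monic → Irreducible π → ∃ v : Valuation L ℤᵐ⁰,
      Function.Surjective v ∧ (∀ q : ℚ, q ≠ 0 → v (ec e q) = 1) ∧ v (e π) < 1) (d : ℕ) :
    ∀ s : KQ L 2, s ∈ Md e d → s ∈ Unramified L 2 → s = 0 := by
  induction d with
  | zero =>
    intro s hs _
    rwa [md_zero, Submodule.mem_bot] at hs
  | succ d ih =>
    intro s hs hu
    rcases Nat.eq_zero_or_pos d with h0 | hd0
    · subst h0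
      rwa [md_one he, Submodule.mem_bot] at hs
    refine ih s ?_ hu
    obtain ⟨μ, hμ, ν, hν, hμν⟩ := Submodule.mem_sup.1 (md_succ_le he hd0 hs)
    obtain ⟨x, hx⟩ := Finsupp.mem_span_range_iff_exists_finsupp.1 hν
    suffices h : ν ∈ Md e d by
      rw [← hμν]
      exact Submodule.add_mem _ hμ h
    rw [← Submodule.Quotient.mk_eq_zero, ← Submodule.mkQ_apply, ← hx, Finsupp.sum, map_sum]
    have e1 : (∑ p ∈ x.support, (Md e d).mkQ (x p • Hc e p.1 p.2)) =
        x.sum fun p c => c • (Md e d).mkQ (Hc e p.1 p.2) := by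
      rw [Finsupp.sum]
      refine Finset.sum_congr rfl fun p _ => ?_
      rw [map_smul]
    rw [e1, Finsupp.sigma_sum]
    refine Finset.sum_eq_zero fun π _ => ?_
    refine sum_eq_zero_of_dual (fun u => (Md e d).mkQ (Hc e π u)) (fun a b => hc_mul he π a b)
      _ fun χ hχ => ?_
    obtain ⟨v, hvs, hv, hvπ⟩ := hval π.1 π.2.1 π.2.2.1
    obtain ⟨l, hl, hlu⟩ := exists_lg_pi he π hv hvπ χ hχ
    have h1 := tame_unramified hvs l hl hu
    rw [← hμν, map_add, tame_md he π hv hvπ l hl hμ, zero_add, ← hx, Finsupp.sum, map_sum] at h1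
    have e2 : ∀ p : Σ π : Ir d, (AdjoinRoot π.1)ˣ, tame v l hl (x p • Hc e p.1 p.2) =
        -(ord v (pu e p.1.1) : ℚ) * (x p * l.toFun (pu e (rep p.1 p.2))) := by
      intro p
      unfold Hc
      rw [map_smul, tame_sy, ord_pu_zero he π hv hvπ (rep_ne p.1 p.2)
        (not_dvd_of_lt π (rep_ne p.1 p.2) (rep_lt p.1 p.2)), smul_eq_mul, Int.cast_zero, zero_mul,
        zero_sub]
      ring
    rw [Finset.sum_congr rfl fun p _ => e2 p] at h1
    have e3 : (∑ p ∈ x.support, -(ord v (pu e p.1.1) : ℚ) *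
        (x p * l.toFun (pu e (rep p.1 p.2)))) = x.sum fun p c =>
        -(ord v (pu e p.1.1) : ℚ) * (c * l.toFun (pu e (rep p.1 p.2))) := rfl
    rw [e3, Finsupp.sigma_sum] at h1
    have e4 : ∀ π' : Ir d, π' ≠ π → ((x.split π').sum fun u c =>
        -(ord v (pu e π'.1) : ℚ) * (c * l.toFun (pu e (rep π' u)))) = 0 := by
      intro π' hne
      have h2 : ord v (pu e π'.1) = 0 := by
        refine ord_pu_zero he π hv hvπ π'.2.1.ne_zero fun hd => hne ?_
        have h3 := (π.2.2.1.associated_of_dvd π'.2.2.1 hd)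
        exact (Subtype.ext (eq_of_monic_of_associated π.2.1 π'.2.1 h3)).symm
      rw [h2, Finsupp.sum]
      refine Finset.sum_eq_zero fun u _ => ?_
      rw [Int.cast_zero, neg_zero, zero_mul]
    have hord : (ord v (pu e π.1) : ℚ) ≠ 0 := by
      intro h2
      have h3 := ord_eq_zero (v := v) (a := pu e π.1) (by exact_mod_cast h2)
      rw [pu_val he π.2.1.ne_zero] at h3
      exact hvπ.ne h3
    by_cases hsup : π ∈ x.splitSupport
    · rw [Finset.sum_eq_single_of_mem π hsup (fun π' _ hne => e4 π' hne)] at h1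
      have h2 : -(ord v (pu e π.1) : ℚ) * ((x.split π).sum fun u c => c * χ u) = 0 := by
        rw [← h1, Finsupp.sum, Finsupp.sum, Finset.mul_sum]
        refine Finset.sum_congr rfl fun u _ => ?_
        rw [hlu]
      exact (mul_eq_zero.1 h2).resolve_left (neg_ne_zero.2 hord)
    · have h2 : x.split π = 0 := by
        by_contra h3
        exact hsup ((x.mem_splitSupport_iff_nonzero π).2 h3)
      rw [h2, Finsupp.sum_zero_index]

end Pool.Agent.Helper537_All
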