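import Pool.Agent.Helper537_All.Sigma
import Pool.Agent.Helper537_All.Tate3
import Pool.Agent.Helper537_Sym.Inf
set_option autoImplicit false

/-!
Discrete valuations of the function field of the curve `z + 1/z = F(x)` above the irreducible
polynomials and above infinity.
-/

namespace Pool.Agent.Helper537_All

open scoped WithZero
open Polynomial
open Pool.Agent.TH826.MK (KQ symb unitPart Unramified)
open Pool.Agent.TH826.HD
open Pool.Agent.Helper537_Sym

variable {F : ℚ[X]} {L : Type*} [Field L] [Algebra (PRing F) L] [IsFractionRing (PRing F) L]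

theorem exists_val_e (w : L) (hw : (∃ π : ℚ[X], π.Monic ∧ 0 < π.natDegree ∧ w = eP F L π) ∨
      w = (eP F L X)⁻¹) :
    ∃ v : Valuation L ℤᵐ⁰, Function.Surjective v ∧
      (∀ q : ℚ, q ≠ 0 → v (ec (eP F L) q) = 1) ∧ v w < 1 := by
  let _ : Algebra ℚ L := (ec (eP F L)).toAlgebra
  have halg : algebraMap ℚ L = ec (eP F L) := rfl
  have hinj := eP_inj (F := F) (L := L)
  have htr : ∀ π : ℚ[X], 0 < π.natDegree → Transcendental ℚ (eP F L π) := by
    intro π hπ h
    obtain ⟨p, hp, hp0⟩ := h
    have h1 : eP F L (p.comp π) = 0 := by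
      rw [← eval_eP (F := F) (L := L), eval₂_comp, eval_eP]
      exact hp0
    have h2 : p.comp π = 0 := hinj (by rw [h1, map_zero])
    rw [comp_eq_zero_iff] at h2
    rcases h2 with h2 | ⟨_, h2⟩
    · exact hp h2
    · rw [h2, natDegree_C] at hπ
      exact lt_irrefl _ hπ
  have hwt : Transcendental ℚ w := by
    rcases hw with ⟨π, _, hπ, rfl⟩ | rfl
    · exact htr π hπ
    · intro h
      have h2 := h.inv
      rw [inv_inv] at h2
      exact htr X (by rw [natDegree_X]; norm_num) h2
  set K := IntermediateField.adjoin ℚ {w} with hK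
  have hwK : w ∈ K := IntermediateField.mem_adjoin_simple_self ℚ w
  have hcomp : (algebraMap K L).comp (algebraMap ℚ K) = ec (eP F L) := by
    rw [← IsScalarTower.algebraMap_eq]
    exact halg
  have hcI : ∀ q : ℚ, IsIntegral K ((eP F L).comp C q) := by
    intro q
    have h1 : ((eP F L).comp C) q = algebraMap K L (algebraMap ℚ K q) := by
      rw [← RingHom.comp_apply, hcomp]
    rw [h1]
    exact isIntegral_algebraMap
  have hxi : IsIntegral K (eP F L X) := by
    rcases hw with ⟨π, hm, hπ, rfl⟩ | rfl
    · refine ⟨π.map (algebraMap ℚ K) - C ⟨_, hwK⟩, ?_, ?_⟩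
      · refine (hm.map _).sub_of_left ?_
        refine lt_of_le_of_lt degree_C_le ?_
        rw [degree_map, ← natDegree_pos_iff_degree_pos]
        exact hπ
      · rw [eval₂_sub, eval₂_C, eval₂_map, hcomp, eval_eP]
        exact sub_self _
    · have h1 : eP F L X ∈ K := by
        have h2 := inv_mem hwK
        rwa [inv_inv] at h2
      exact isIntegral_algebraMap (R := K) (A := L) (x := ⟨_, h1⟩)
  have hPi : ∀ P : ℚ[X], IsIntegral K (eP F L P) := by
    intro P
    rw [← eval_eP (F := F) (L := L), eval₂_eq_sum_range]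
    refine IsIntegral.sum _ fun i _ => ?_
    exact IsIntegral.mul (hcI _) (hxi.pow i)
  have hzi : IsIntegral K (zF F L : L) := by
    have h1 : IsIntegral (integralClosure K L) (zF F L : L) := by
      refine ⟨X ^ 2 - C ⟨eP F L F, hPi F⟩ * X + 1, ?_, ?_⟩
      · monicity!
      · simp only [eval₂_add, eval₂_sub, eval₂_mul, eval₂_X, eval₂_C, eval₂_one, eval₂_X_pow]
        exact zF_quad
    exact isIntegral_trans _ h1
  have hfin : FiniteDimensional K L := by
    have h1 : FiniteDimensional K
        (IntermediateField.adjoin K ({eP F L X, (zF F L : L)} : Set L)) :=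
      IntermediateField.finiteDimensional_adjoin fun y hy => by
        rcases hy with rfl | hy
        · exact hxi
        · rw [Set.mem_singleton_iff] at hy
          rw [hy]
          exact hzi
    have htop : IntermediateField.adjoin K ({eP F L X, (zF F L : L)} : Set L) = ⊤ := by
      rw [eq_top_iff]
      intro l _
      have hx : eP F L X ∈ IntermediateField.adjoin K ({eP F L X, (zF F L : L)} : Set L) :=
        IntermediateField.subset_adjoin K _ (Or.inl rfl)
      have hz : (zF F L : L) ∈ IntermediateField.adjoin K ({eP F L X, (zF F L : L)} : Set L) :=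
        IntermediateField.subset_adjoin K _ (Or.inr rfl)
      have hP : ∀ P : ℚ[X], eP F L P ∈
          IntermediateField.adjoin K ({eP F L X, (zF F L : L)} : Set L) := by
        intro P
        have h1 := eval_eP (F := F) (L := L) P
        rw [eval₂_eq_sum_range] at h1
        rw [← h1]
        refine _root_.sum_mem fun i _ => mul_mem ?_ (pow_mem hx i)
        have h2 : ((eP F L).comp C) (P.coeff i) = algebraMap K L (algebraMap ℚ K (P.coeff i)) := by
          rw [← RingHom.comp_apply, hcomp]
        rw [h2]
        exact IntermediateField.algebraMap_mem _ (algebraMap ℚ K (P.coeff i))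
      obtain ⟨a, a', -, rfl⟩ := IsFractionRing.div_surjective (PRing F) l
      obtain ⟨P, Q, rfl⟩ := exists_el a
      obtain ⟨P', Q', rfl⟩ := exists_el a'
      rw [alg_el, alg_el]
      exact div_mem (add_mem (hP _) (mul_mem (hP _) hz)) (add_mem (hP _) (mul_mem (hP _) hz))
    rw [htop] at h1
    exact Module.Finite.equiv (IntermediateField.topEquiv (F := K) (E := L)).toLinearEquiv
  exact exists_val w hwt

theorem hval (π : ℚ[X]) (hm : π.Monic) (hi : Irreducible π) : ∃ v : Valuation L ℤᵐ⁰,
    Function.Surjective v ∧ (∀ q : ℚ, q ≠ 0 → v (ec (eP F L) q) = 1) ∧ v (eP F L π) < 1 :=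
  exists_val_e _ (Or.inl ⟨π, hm, hi.natDegree_pos, rfl⟩)

end Pool.Agent.Helper537_All
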