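import Mathlib
set_option autoImplicit false

/-!
Valuations of the cyclotomic fields.
-/

namespace Pool.Agent.Helper537_All

open scoped WithZero NumberField
open IsDedekindDomain

theorem exists_val_cyc (m p : ℕ) [NeZero m] [hp : Fact p.Prime] (K : Type*) [Field K]
    [NumberField K] [IsCyclotomicExtension {m} ℚ K] :
    ∃ v : Valuation K ℤᵐ⁰, (∀ x : K, IsIntegral ℤ x → v x ≤ 1) ∧
      ∃ e : ℕ, v (p : K) = WithZero.exp (-(e : ℤ)) ∧ 0 < e ∧ (¬ p ∣ m → e = 1) ∧
        (p ∣ m → ∃ k, e = p ^ k * (p - 1)) := by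
  obtain ⟨⟨P, hP1, hP2⟩⟩ := (Ideal.span {(p : ℤ)}).nonempty_primesOver (S := 𝓞 K)
  have hp0 : (p : ℤ) ≠ 0 := by exact_mod_cast hp.out.ne_zero
  have hpK : (p : 𝓞 K) ≠ 0 := by exact_mod_cast hp.out.ne_zero
  have hmap : (Ideal.span {(p : ℤ)}).map (algebraMap ℤ (𝓞 K)) = Ideal.span {(p : 𝓞 K)} := by
    rw [Ideal.map_span, Set.image_singleton, map_natCast]
  have hmap0 : (Ideal.span {(p : ℤ)}).map (algebraMap ℤ (𝓞 K)) ≠ ⊥ := by
    rw [hmap, Ne, Ideal.span_singleton_eq_bot]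
    exact hpK
  have hPb : P ≠ ⊥ := ne_bot_of_le_ne_bot hmap0 (Ideal.map_le_of_le_comap
    (P.over_def (Ideal.span {(p : ℤ)})).le)
  let w : HeightOneSpectrum (𝓞 K) := ⟨P, hP1, hPb⟩
  have hr := Ideal.IsDedekindDomain.ramificationIdx_eq_multiplicity (Ideal.span {(p : ℤ)}) (q := P)
    hmap0
  have hvp : w.valuation K (p : K) = WithZero.exp (-(P.ramificationIdx ℤ : ℤ)) := by
    have h1 : (p : K) = algebraMap (𝓞 K) K (p : 𝓞 K) := by rw [map_natCast]
    rw [h1, w.valuation_of_algebraMap, w.intValuation_eq_exp_neg_multiplicity hpK, hr, hmap]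
  have he0 : 0 < P.ramificationIdx ℤ := by
    have h1 : w.valuation K (algebraMap (𝓞 K) K (p : 𝓞 K)) < 1 := by
      rw [w.valuation_lt_one_iff_mem]
      have h2 : (p : 𝓞 K) ∈ (Ideal.span {(p : ℤ)}).map (algebraMap ℤ (𝓞 K)) := by
        rw [hmap]
        exact Ideal.mem_span_singleton_self _
      exact Ideal.map_le_of_le_comap (P.over_def (Ideal.span {(p : ℤ)})).le h2
    rw [map_natCast, hvp, ← WithZero.exp_zero, WithZero.exp_lt_exp] at h1
    omega
  refine ⟨w.valuation K, ?_, P.ramificationIdx ℤ, hvp, he0, ?_, ?_⟩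
  · intro x hx
    obtain ⟨y, hy⟩ := IsIntegralClosure.isIntegral_iff (A := 𝓞 K) (R := ℤ) (B := K).1 hx
    rw [← hy]
    exact w.valuation_le_one y
  · intro h
    exact IsCyclotomicExtension.Rat.ramificationIdx_eq_of_not_dvd p K P h
  · intro hpm
    obtain ⟨k, m', hm', hm⟩ := Nat.exists_eq_pow_mul_and_not_dvd (NeZero.ne m) p hp.out.ne_one
    rcases k with _ | k
    · rw [pow_zero, one_mul] at hm
      rw [hm] at hpm
      exact absurd hpm hm'
    · exact ⟨k, IsCyclotomicExtension.Rat.ramificationIdx_eq m K P hm hm'⟩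

end Pool.Agent.Helper537_All
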