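import Pool.Agent.Helper537_All.Unit
set_option autoImplicit false

/-!
The degree of the solutions of `lam ∏ (x - b_i) = ζ + ζ⁻¹ - t`.
-/

namespace Pool.Agent.Helper537_All

open scoped WithZero
open Polynomial IntermediateField

theorem log_val {K : Type*} [Field K] {v : Valuation K ℤᵐ⁰} {p e : ℕ} (hp : p.Prime) (he : 0 < e)
    (hvp : v (p : K) = WithZero.exp (-(e : ℤ))) (hvi : ∀ n : ℤ, v (n : K) ≤ 1) {lam : ℤ}
    (hl : lam ≠ 0) : WithZero.log (v (lam : K)) = -((e * padicValInt p lam : ℕ) : ℤ) ∧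
      v (lam : K) ≠ 0 := by
  have : Fact p.Prime := ⟨hp⟩
  have hvp1 : v (p : K) < 1 := by
    rw [hvp, ← WithZero.exp_zero, WithZero.exp_lt_exp]
    omega
  set c := padicValInt p lam with hc
  obtain ⟨r, hr⟩ := (padicValInt_dvd_iff c lam).2 (Or.inr le_rfl)
  have hr1 : ¬ (p : ℤ) ∣ r := by
    rintro ⟨r', hr'⟩
    have h1 : (p : ℤ) ^ (c + 1) ∣ lam := ⟨r', by rw [hr, hr', pow_succ]; ring⟩
    rcases (padicValInt_dvd_iff (c + 1) lam).1 h1 with h2 | h2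
    · exact hl h2
    · omega
  have h1 : v (lam : K) = WithZero.exp (-(e : ℤ)) ^ c := by
    rw [hr, Int.cast_mul, Int.cast_pow, Int.cast_natCast, map_mul, map_pow, hvp,
      v_int_one hp hvp1 hvi hr1, mul_one]
  rw [h1]
  refine ⟨?_, pow_ne_zero _ WithZero.exp_ne_zero⟩
  rw [WithZero.log_pow, WithZero.log_exp]
  simp only [nsmul_eq_mul]
  push_cast
  ring

theorem adjoin_cyc {m : ℕ} [NeZero m] {ζ : ℂ} (hζ : IsPrimitiveRoot ζ m) :
    IsCyclotomicExtension {m} ℚ ℚ⟮ζ⟯ := by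
  change IsCyclotomicExtension {m} ℚ (ℚ⟮ζ⟯).toSubalgebra
  have h1 : IsAlgebraic ℚ ζ := ((hζ.isIntegral (NeZero.pos m)).tower_top (A := ℚ)).isAlgebraic
  rw [IntermediateField.adjoin_simple_toSubalgebra_of_isAlgebraic h1]
  exact hζ.adjoin_isCyclotomicExtension ℚ

theorem exists_good_val {m : ℕ} [NeZero m] {ζ : ℂ} (hζ : IsPrimitiveRoot ζ m) {N : ℕ}
    (hN0 : N ≠ 0) (hN1 : N ≠ 1) {lam t : ℤ} (hl : lam ≠ 0) (ht : |t| ≤ 2) {p q : ℕ}
    (hp : p.Prime) (hq : q.Prime) (hpq : p ≠ q) (hq5 : 5 ≤ q)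
    (hcp : (p * (p - 1) * padicValInt p lam).Coprime N)
    (hcq : (padicValInt q lam).Coprime N) (hs : ζ + ζ⁻¹ - t ≠ 0) :
    ∃ v : Valuation ℚ⟮ζ⟯ ℤᵐ⁰, (∀ n : ℤ, v (n : ℚ⟮ζ⟯) ≤ 1) ∧
      v (AdjoinSimple.gen ℚ ζ + (AdjoinSimple.gen ℚ ζ)⁻¹ - t) = 1 ∧ v (lam : ℚ⟮ζ⟯) < 1 ∧
      IsCoprime (N : ℤ) (WithZero.log (v (lam : ℚ⟮ζ⟯))) := by
  have hcyc := adjoin_cyc hζ
  have hnf : NumberField ℚ⟮ζ⟯ := IsCyclotomicExtension.numberField {m} ℚ ℚ⟮ζ⟯
  have hm : m ≠ 0 := NeZero.ne m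
  set z := AdjoinSimple.gen ℚ ζ with hz
  have hzp : IsPrimitiveRoot z m := by
    rw [← IsPrimitiveRoot.coe_submonoidClass_iff]
    exact hζ
  have hzm : z ^ m = 1 := hzp.pow_eq_one
  have hs' : z + z⁻¹ - t ≠ 0 := by
    intro h
    apply hs
    have h1 := congrArg (algebraMap ℚ⟮ζ⟯ ℂ) h
    rw [map_sub, map_add, map_inv₀, map_intCast, map_zero] at h1
    exact h1
  -- a valuation above `r` gives the result as soon as `s` is a unit
  have main : ∀ r : ℕ, r.Prime → (padicValInt r lam).Coprime N →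
      (r ∣ m → (r * (r - 1)).Coprime N) → (∀ v : Valuation ℚ⟮ζ⟯ ℤᵐ⁰, v (r : ℚ⟮ζ⟯) < 1 →
        (∀ n : ℤ, v (n : ℚ⟮ζ⟯) ≤ 1) → v (z + z⁻¹ - t) ≤ 1 → v (z + z⁻¹ - t) = 1) →
      ∃ v : Valuation ℚ⟮ζ⟯ ℤᵐ⁰, (∀ n : ℤ, v (n : ℚ⟮ζ⟯) ≤ 1) ∧
        v (z + z⁻¹ - t) = 1 ∧ v (lam : ℚ⟮ζ⟯) < 1 ∧
        IsCoprime (N : ℤ) (WithZero.log (v (lam : ℚ⟮ζ⟯))) := by
    intro r hr hc hrm hu
    have : Fact r.Prime := ⟨hr⟩
    obtain ⟨v, hv, e, hvp, he, he1, he2⟩ := exists_val_cyc m r ℚ⟮ζ⟯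
    have hvi : ∀ n : ℤ, v (n : ℚ⟮ζ⟯) ≤ 1 := fun n => hv _ (by
      have := isIntegral_algebraMap (R := ℤ) (A := ℚ⟮ζ⟯) (x := n)
      rwa [algebraMap_int_eq, eq_intCast] at this)
    have hvp1 : v (r : ℚ⟮ζ⟯) < 1 := by
      rw [hvp, ← WithZero.exp_zero, WithZero.exp_lt_exp]
      omega
    obtain ⟨hlog, hne⟩ := log_val hr he hvp hvi hl
    have hz1 := v_root (v := v) hm hzm
    have hsle : v (z + z⁻¹ - t) ≤ 1 := by
      refine (v.map_sub _ _).trans (max_le ((v.map_add _ _).trans (max_le hz1.le ?_)) (hvi t))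
      rw [map_inv₀, hz1, inv_one]
    have hce : e.Coprime N := by
      by_cases h : r ∣ m
      · obtain ⟨k, rfl⟩ := he2 h
        have h1 := hrm h
        exact Nat.Coprime.mul_left (Nat.Coprime.pow_left _ (Nat.coprime_mul_iff_left.1 h1).1)
          (Nat.coprime_mul_iff_left.1 h1).2
      · rw [he1 h]
        exact Nat.coprime_one_left N
    have hcc : (e * padicValInt r lam).Coprime N := Nat.Coprime.mul_left hce hc
    have hpos : 0 < e * padicValInt r lam := by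
      refine Nat.pos_of_ne_zero fun h0 => ?_
      rw [h0, Nat.coprime_zero_left] at hcc
      exact hN1 hcc
    refine ⟨v, hvi, hu v hvp1 hvi hsle, ?_, ?_⟩
    · rw [← WithZero.exp_log hne, hlog, ← WithZero.exp_zero, WithZero.exp_lt_exp]
      omega
    · rw [hlog]
      refine IsCoprime.neg_right ?_
      rw [Nat.isCoprime_iff_coprime]
      exact hcc.symm
  by_cases hm12 : ∃ a, m ∣ 12 * p ^ a
  · -- use the prime `q`
    obtain ⟨a, ha⟩ := hm12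
    have hqm : ¬ q ∣ m := by
      intro h
      have h3 := h.trans ha
      rcases (Nat.Prime.dvd_mul hq).1 h3 with h4 | h4
      · have h5 : q ∣ 2 ^ 2 * 3 := by norm_num; exact h4
        rcases (Nat.Prime.dvd_mul hq).1 h5 with h6 | h6
        · have := Nat.le_of_dvd (by norm_num) (hq.dvd_of_dvd_pow h6)
          omega
        · have := Nat.le_of_dvd (by norm_num) h6
          omega
      · exact hpq ((Nat.prime_dvd_prime_iff_eq hq hp).1 (hq.dvd_of_dvd_pow h4)).symm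
    refine main q hq hcq (fun h => absurd h hqm) fun v hvp hvi hle => ?_
    by_contra hne
    have hlt := lt_of_le_of_ne hle hne
    obtain ⟨c, hc⟩ := unit_cond hq hvp hvi hm hzm ht hlt
    have h3 : m ∣ n0 t * q ^ c := hzp.dvd_of_pow_eq_one _ hc
    have h4 : m ∣ n0 t := by
      refine (Nat.Coprime.dvd_mul_right ?_).1 h3
      refine Nat.Coprime.pow_right _ ?_
      exact ((Nat.Prime.coprime_iff_not_dvd hq).2 hqm).symm
    have h5 : z ^ n0 t = 1 := (hzp.pow_eq_one_iff_dvd _).2 h4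
    obtain ⟨s, hs4, hse⟩ := s_int ht h5
    have hs0 : s ≠ 0 := by
      rintro rfl
      rw [Int.cast_zero] at hse
      exact hs' hse
    have h6 : ¬ (q : ℤ) ∣ s := by
      intro h
      have h7 := Int.le_of_dvd (abs_pos.2 hs0) ((dvd_abs _ _).2 h)
      have h8 : (5 : ℤ) ≤ q := by exact_mod_cast hq5
      omega
    have h7 := v_int_one hq hvp hvi h6
    rw [← hse] at h7
    exact hne h7
  · refine main p hp (Nat.coprime_mul_iff_left.1 hcp).2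
      (fun _ => (Nat.coprime_mul_iff_left.1 hcp).1) fun v hvp hvi hle => ?_
    by_contra hne
    have hlt := lt_of_le_of_ne hle hne
    obtain ⟨c, hc⟩ := unit_cond hp hvp hvi hm hzm ht hlt
    have h3 : m ∣ n0 t * p ^ c := hzp.dvd_of_pow_eq_one _ hc
    exact hm12 ⟨c, h3.trans (mul_dvd_mul_right (n0_dvd t) _)⟩

theorem deg_dvd {m : ℕ} [NeZero m] {ζ : ℂ} (hζ : IsPrimitiveRoot ζ m) {N : ℕ}
    (hN0 : N ≠ 0) {lam t : ℤ} (hl : lam ≠ 0) (ht : |t| ≤ 2) {p q : ℕ}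
    (hp : p.Prime) (hq : q.Prime) (hpq : p ≠ q) (hq5 : 5 ≤ q)
    (hcp : (p * (p - 1) * padicValInt p lam).Coprime N)
    (hcq : (padicValInt q lam).Coprime N) (hs : ζ + ζ⁻¹ - t ≠ 0) {b : Fin N → ℤ} {α : ℂ}
    (hα : IsIntegral ℚ α) (h : (lam : ℂ) * ∏ i, (α - b i) = ζ + ζ⁻¹ - t) :
    N ∣ (minpoly ℚ⟮ζ + ζ⁻¹⟯ α).natDegree := by
  by_cases hN1 : N = 1
  · rw [hN1]
    exact one_dvd _
  obtain ⟨v, hvi, hv1, hvl, hco⟩ := exists_good_val hζ hN0 hN1 hl ht hp hq hpq hq5 hcp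
    hcq hs
  have hle : ℚ⟮ζ + ζ⁻¹⟯ ≤ ℚ⟮ζ⟯ := by
    rw [IntermediateField.adjoin_simple_le_iff]
    have hz : ζ ∈ ℚ⟮ζ⟯ := mem_adjoin_simple_self ℚ ζ
    exact add_mem hz (inv_mem hz)
  set i : ℚ⟮ζ + ζ⁻¹⟯ →+* ℚ⟮ζ⟯ := (IntermediateField.inclusion hle).toRingHom with hi
  set s : ℚ⟮ζ + ζ⁻¹⟯ := AdjoinSimple.gen ℚ (ζ + ζ⁻¹) - t with hsdef
  have hsi : i s = AdjoinSimple.gen ℚ ζ + (AdjoinSimple.gen ℚ ζ)⁻¹ - t := by
    rw [hsdef, map_sub, map_intCast]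
    congr 1
  have hdvd := newton (v.comap i) (hα.tower_top (A := ℚ⟮ζ + ζ⁻¹⟯)) (N := N)
    (lam := (lam : ℚ⟮ζ + ζ⁻¹⟯)) (s := s) (b := fun j => (b j : ℚ⟮ζ + ζ⁻¹⟯))
    (fun j => by rw [Valuation.comap_apply, map_intCast]; exact hvi _)
    (by rw [Valuation.comap_apply, hsi]; exact hv1)
    (by rw [Valuation.comap_apply, map_intCast]; exact hvl)
    (Int.cast_ne_zero.2 hl)
    (by
      rw [map_intCast, hsdef, map_sub, map_intCast, AdjoinSimple.algebraMap_gen]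
      simp only [map_intCast]
      exact h)
  rw [Valuation.comap_apply, map_intCast] at hdvd
  have h3 := hco.dvd_of_dvd_mul_right hdvd
  exact_mod_cast h3

end Pool.Agent.Helper537_All
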