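import Mathlib
set_option autoImplicit false

/-!
Relations between the values of an additive function with values in a rational vector space.
-/

namespace Pool.Agent.Helper537_All

theorem sum_eq_zero_of_dual {E V : Type*} [CommGroup E] [AddCommGroup V] [Module ℚ V] (h : E → V)
    (hh : ∀ a b, h (a * b) = h a + h b) (x : E →₀ ℚ)
    (hx : ∀ χ : E → ℚ, (∀ a b, χ (a * b) = χ a + χ b) → x.sum (fun a c => c * χ a) = 0) :
    x.sum (fun a c => c • h a) = 0 := by
  set R : Submodule ℚ (E →₀ ℚ) := Submodule.span ℚ (Set.range fun p : E × E =>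
    Finsupp.single (p.1 * p.2) (1 : ℚ) - (Finsupp.single p.1 1 + Finsupp.single p.2 1)) with hR
  have hker : R ≤ LinearMap.ker (Finsupp.linearCombination ℚ h) := by
    rw [hR, Submodule.span_le]
    rintro _ ⟨p, rfl⟩
    show Finsupp.linearCombination ℚ h _ = 0
    rw [map_sub, map_add, Finsupp.linearCombination_single, Finsupp.linearCombination_single,
      Finsupp.linearCombination_single, one_smul, one_smul, one_smul, hh, sub_self]
  by_cases hxR : x ∈ R
  · exact hker hxR
  · exfalso
    obtain ⟨φ, hφ, hφR⟩ := Submodule.exists_dual_map_eq_bot_of_notMem hxR inferInstance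
    have hadd : ∀ a b : E, φ (Finsupp.single (a * b) 1) =
        φ (Finsupp.single a 1) + φ (Finsupp.single b 1) := by
      intro a b
      have h1 : φ (Finsupp.single (a * b) (1 : ℚ) -
          (Finsupp.single a 1 + Finsupp.single b 1)) ∈ Submodule.map φ R :=
        Submodule.mem_map_of_mem (Submodule.subset_span ⟨(a, b), rfl⟩)
      rw [hφR, Submodule.mem_bot, map_sub, map_add, sub_eq_zero] at h1
      exact h1
    apply hφ
    have h2 := hx (fun a => φ (Finsupp.single a 1)) hadd
    have h3 : x = x.sum fun a c => c • Finsupp.single a (1 : ℚ) := by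
      conv_lhs => rw [← Finsupp.sum_single x]
      refine Finsupp.sum_congr fun a _ => ?_
      rw [Finsupp.smul_single, smul_eq_mul, mul_one]
    rw [h3, Finsupp.sum, map_sum]
    rw [Finsupp.sum] at h2
    rw [← h2]
    refine Finset.sum_congr rfl fun a _ => ?_
    rw [map_smul, smul_eq_mul]

end Pool.Agent.Helper537_All
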