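import Pool.Agent.Helper537_All.Main
import Pool.Agent.Helper537_All.Degree
set_option autoImplicit false

/-!
The symbol of `z` and an irreducible polynomial above which `z` is a root of unity.
-/

namespace Pool.Agent.Helper537_All

open scoped WithZero
open Polynomial IntermediateField
open Pool.Agent.TH826.MK (KQ symb unitPart Unramified Torus)
open Pool.Agent.TH826.HD
open Pool.Agent.Helper537_Sym

/-! ### degrees -/

theorem deg_tower {F π : ℚ[X]} (hm : π.Monic) (hi : Irreducible π) {α : ℂ} (hα : aeval α π = 0) :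
    π.natDegree = (minpoly ℚ (aeval α F)).natDegree *
      (minpoly ℚ⟮(aeval α F : ℂ)⟯ α).natDegree := by
  have hint : IsIntegral ℚ α := ⟨π, hm, hα⟩
  have hη : IsIntegral ℚ (aeval α F : ℂ) := by
    have h1 := (aeval_algebraMap_apply ℂ (AdjoinSimple.gen ℚ α) F)
    have : Algebra.IsIntegral ℚ ℚ⟮α⟯ := by
      have := adjoin.finiteDimensional hint
      infer_instance
    have h2 : IsIntegral ℚ (aeval (AdjoinSimple.gen ℚ α) F) := Algebra.IsIntegral.isIntegral _
    rw [AdjoinSimple.algebraMap_gen] at h1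
    rw [h1]
    exact h2.algebraMap
  have hmem : (aeval α F : ℂ) ∈ ℚ⟮α⟯ := by
    rw [← AdjoinSimple.algebraMap_gen ℚ α, aeval_algebraMap_apply]
    exact Subtype.mem _
  have h1 : π = minpoly ℚ α := minpoly.eq_of_irreducible_of_monic hi hα hm
  rw [h1, ← adjoin.finrank hint, ← adjoin.finrank hη,
    ← adjoin.finrank (hint.tower_top (A := ℚ⟮(aeval α F : ℂ)⟯)),
    Module.finrank_mul_finrank ℚ ℚ⟮(aeval α F : ℂ)⟯ ℚ⟮(aeval α F : ℂ)⟯⟮α⟯]
  have h2 : (ℚ⟮(aeval α F : ℂ)⟯⟮α⟯).restrictScalars ℚ = ℚ⟮α⟯ := by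
    have h3 := IntermediateField.adjoin_adjoin_left ℚ ({(aeval α F : ℂ)} : Set ℂ) {α}
    refine h3.trans ?_
    apply le_antisymm
    · rw [IntermediateField.adjoin_le_iff]
      rintro x (hx | hx)
      · rw [Set.mem_singleton_iff] at hx
        rw [hx]
        exact hmem
      · rw [Set.mem_singleton_iff] at hx
        rw [hx]
        exact mem_adjoin_simple_self ℚ α
    · exact IntermediateField.adjoin.mono _ _ _ (Set.subset_union_right)
  rw [← h2]
  rfl

/-! ### the symbols of `z` and polynomials in `z` -/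

section general

variable {L : Type*} [Field L]

theorem ve_pow {e : ℚ[X] →+* L} {v : Valuation L ℤᵐ⁰} (hv : ∀ q : ℚ, q ≠ 0 → v (ec e q) = 1)
    (hx : 1 < v (e X)) {P : ℚ[X]} (hP0 : P ≠ 0) : v (e P) = v (e X) ^ P.natDegree := by
  rw [e_eq_sum P, Finset.sum_range_succ]
  have h3 : v (e (C (P.coeff P.natDegree)) * e X ^ P.natDegree) = v (e X) ^ P.natDegree := by
    rw [map_mul, map_pow]
    have := hv _ (leadingCoeff_ne_zero.2 hP0)
    rw [show e (C (P.coeff P.natDegree)) = ec e P.leadingCoeff from rfl, this, one_mul]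
  have h2 : v (∑ i ∈ Finset.range P.natDegree, e (C (P.coeff i)) * e X ^ i) <
      v (e (C (P.coeff P.natDegree)) * e X ^ P.natDegree) := by
    rw [h3]
    refine Valuation.map_sum_lt v ?_ fun i hi => ?_
    · exact pow_ne_zero _ (ne_of_gt (zero_lt_one.trans hx))
    · rw [map_mul, map_pow]
      calc v (e (C (P.coeff i))) * v (e X) ^ i ≤ 1 * v (e X) ^ i :=
            mul_le_mul_left (vc_le hv _) _
        _ = v (e X) ^ i := one_mul _
        _ < v (e X) ^ P.natDegree := pow_lt_pow_right₀ hx (Finset.mem_range.1 hi)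
  rw [Valuation.map_add_eq_of_lt_right v h2, h3]

end general

variable {F : ℚ[X]} {L : Type*} [Field L] [Algebra (PRing F) L] [IsFractionRing (PRing F) L]

variable (F L) in
/-- Polynomials in `z`. -/
noncomputable def eZ : ℚ[X] →+* L := eval₂RingHom (ec (eP F L)) (zF F L : L)

omit [IsFractionRing (PRing F) L] in
theorem eZ_apply (P : ℚ[X]) : eZ F L P = P.eval₂ (ec (eP F L)) (zF F L : L) := rfl

omit [IsFractionRing (PRing F) L] in
theorem eZ_X : eZ F L X = zF F L := by rw [eZ_apply, eval₂_X]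

omit [IsFractionRing (PRing F) L] in
theorem ec_eZ : ec (eZ F L) = ec (eP F L) := Subsingleton.elim _ _

theorem exists_inf_gt (hF : 0 < F.natDegree) : ∃ v : Valuation L ℤᵐ⁰,
    (∀ q : ℚ, q ≠ 0 → v (ec (eP F L) q) = 1) ∧ 1 < v (zF F L : L) := by
  obtain ⟨v, -, hv, ho⟩ := exists_inf (F := F) (L := L) hF
  have hne : v (zF F L : L) ≠ 1 := fun h => ho (ord_of_one h)
  rcases lt_or_gt_of_ne hne with h | h
  · refine ⟨v.comap (sig F L), fun q hq => ?_, ?_⟩
    · rw [Valuation.comap_apply]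
      have h1 : sig F L (ec (eP F L) q) = ec (eP F L) q := sig_eP (C q)
      rw [h1, hv q hq]
    · rw [Valuation.comap_apply, sig_z, Units.val_inv_eq_inv_val, map_inv₀]
      exact (one_lt_inv₀ (zero_lt_iff.2 (v_ne v _))).2 h
  · exact ⟨v, hv, h⟩

theorem eZ_inj (hF : 0 < F.natDegree) : Function.Injective (eZ F L) := by
  rw [injective_iff_map_eq_zero]
  intro P hP
  by_contra hne
  obtain ⟨v, hv, hz⟩ := exists_inf_gt (F := F) (L := L) hF
  have h1 := ve_pow (e := eZ F L) (v := v) (by rw [ec_eZ]; exact hv) (by rw [eZ_X]; exact hz) hne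
  rw [hP, map_zero, eZ_X] at h1
  exact pow_ne_zero _ (v_ne v _) h1.symm

theorem zC_mem (hF : 0 < F.natDegree) {c : ℚ} (hc : c ≠ 0) :
    sy (zF F L) (pu (eZ F L) (C c)) ∈ Fz F L := by
  rw [pu_C (eZ_inj hF) hc, ec_eZ]
  exact sz_const_mem _

theorem zpow_sub_mem (hF : 0 < F.natDegree) {m : ℕ} (hm : 0 < m) :
    sy (zF F L) (pu (eZ F L) (X ^ m - 1)) = 0 := by
  have h0 : (X ^ m - 1 : ℚ[X]) ≠ 0 := by
    have := X_pow_sub_C_ne_zero hm (1 : ℚ)
    rwa [C_1] at this
  have h1 : sy (zF F L ^ m) (-pu (eZ F L) (X ^ m - 1)) = 0 := by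
    refine sy_steinberg ?_
    rw [Units.val_neg, pu_val (eZ_inj hF) h0, map_sub, map_pow, map_one, eZ_X,
      Units.val_pow_eq_pow_val]
    ring
  rw [sy_neg_right, sy_pow_left] at h1
  exact eq_zero_of_two_smul (Nat.cast_ne_zero.2 hm.ne') h1

theorem zcyc_mem (hF : 0 < F.natDegree) (m : ℕ) : 0 < m →
    sy (zF F L) (pu (eZ F L) (cyclotomic m ℚ)) ∈ Fz F L := by
  induction m using Nat.strong_induction_on with
  | _ m ih =>
    intro hm
    have h1 := zpow_sub_mem (F := F) (L := L) hF hm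
    have hpu : ∀ s : Finset ℕ, pu (eZ F L) (∏ d ∈ s, cyclotomic d ℚ) =
        ∏ d ∈ s, pu (eZ F L) (cyclotomic d ℚ) := by
      intro s
      apply Units.ext
      rw [pu_val (eZ_inj hF) (Finset.prod_ne_zero_iff.2 fun d _ => cyclotomic_ne_zero d ℚ),
        map_prod, Units.coe_prod]
      exact Finset.prod_congr rfl fun d _ => (pu_val (eZ_inj hF) (cyclotomic_ne_zero d ℚ)).symm
    rw [← prod_cyclotomic_eq_X_pow_sub_one hm ℚ, hpu, sy_prod_right,
      ← Nat.insert_self_properDivisors hm.ne', Finset.sum_insert Nat.self_notMem_properDivisors]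
      at h1
    rw [eq_neg_of_add_eq_zero_left h1]
    refine Submodule.neg_mem _ (Submodule.sum_mem _ fun d hd => ?_)
    rw [Nat.mem_properDivisors] at hd
    exact ih d hd.2 (Nat.pos_of_dvd_of_pos hd.1 hm)

theorem zroots_mem (hF : 0 < F.natDegree) (n : ℕ) : ∀ R : ℚ[X], R ≠ 0 → R.natDegree = n →
    (∀ w : ℂ, aeval w R = 0 → ∃ k, 0 < k ∧ w ^ k = 1) →
      sy (zF F L) (pu (eZ F L) R) ∈ Fz F L := by
  induction n using Nat.strong_induction_on with
  | _ n ih =>
    intro P hP hn h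
    by_cases hu : IsUnit P
    · obtain ⟨c, hc, rfl⟩ := isUnit_iff.1 hu
      exact zC_mem hF hc.ne_zero
    · obtain ⟨π, hm, hi, Q, rfl⟩ := exists_monic_irreducible_factor P hu
      have hQ : Q ≠ 0 := right_ne_zero_of_mul hP
      rw [pu_mul (eZ_inj hF) hm.ne_zero hQ, sy_mul_right]
      refine Submodule.add_mem _ ?_ ?_
      · obtain ⟨w, hw⟩ := exists_croot hi
        obtain ⟨k, hk, hwk⟩ := h w (by rw [map_mul, hw, zero_mul])
        have hfin : 0 < orderOf w := orderOf_pos_iff.2 (isOfFinOrder_iff_pow_eq_one.2 ⟨k, hk, hwk⟩)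
        have h1 : π = cyclotomic (orderOf w) ℚ := by
          rw [cyclotomic_eq_minpoly_rat (IsPrimitiveRoot.orderOf w) hfin]
          exact minpoly.eq_of_irreducible_of_monic hi hw hm
        rw [h1]
        exact zcyc_mem hF _ hfin
      · refine ih Q.natDegree ?_ Q hQ rfl fun w hw => h w (by rw [map_mul, hw, mul_zero])
        rw [natDegree_mul hm.ne_zero hQ] at hn
        have := hi.natDegree_pos
        omega

/-! ### the reciprocal polynomial -/

/-- The polynomial `X ^ k Ψ(X + 1/X)`. -/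
noncomputable def rcp (Ψ : ℚ[X]) : ℚ[X] :=
  ∑ i ∈ Finset.range (Ψ.natDegree + 1), C (Ψ.coeff i) * X ^ (Ψ.natDegree - i) * (X ^ 2 + 1) ^ i

theorem rcp_eval₂ {K : Type*} [Field K] (f : ℚ →+* K) (Ψ : ℚ[X]) {w : K} (hw : w ≠ 0) :
    (rcp Ψ).eval₂ f w = w ^ Ψ.natDegree * Ψ.eval₂ f (w + w⁻¹) := by
  unfold rcp
  rw [eval₂_finsetSum, eval₂_eq_sum_range, Finset.mul_sum]
  refine Finset.sum_congr rfl fun i hi => ?_
  rw [Finset.mem_range] at hi
  simp only [eval₂_mul, eval₂_pow, eval₂_add, eval₂_X, eval₂_one, eval₂_C]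
  have h1 : w ^ 2 + 1 = w * (w + w⁻¹) := by
    field_simp
  have h2 : w ^ Ψ.natDegree = w ^ (Ψ.natDegree - i) * w ^ i := by
    rw [← pow_add]
    congr 1
    omega
  rw [h1, h2, mul_pow]
  ring

theorem rcp_zero {K : Type*} [Field K] (f : ℚ →+* K) (Ψ : ℚ[X]) :
    (rcp Ψ).eval₂ f 0 = f Ψ.leadingCoeff := by
  unfold rcp
  rw [eval₂_finsetSum, Finset.sum_range_succ, Finset.sum_eq_zero, zero_add]
  · simp only [eval₂_mul, eval₂_pow, eval₂_add, eval₂_X, eval₂_one, eval₂_C, Nat.sub_self,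
      pow_zero, mul_one]
    norm_num
  · intro i hi
    rw [Finset.mem_range] at hi
    simp only [eval₂_mul, eval₂_pow, eval₂_add, eval₂_X, eval₂_one, eval₂_C]
    rw [zero_pow (by omega : Ψ.natDegree - i ≠ 0)]
    ring

theorem zcomp_mem (hF : 0 < F.natDegree) {Ψ : ℚ[X]} (hΨ : Ψ ≠ 0) {n : ℕ} (hn : 0 < n)
    (hd : Ψ ∣ dickson 1 (1 : ℚ) n - C 2) :
    sy (zF F L) (pu (eP F L) (Ψ.comp F)) ∈ Fz F L := by
  have hcomp : Ψ.comp F ≠ 0 := by
    intro h
    rw [comp_eq_zero_iff] at h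
    rcases h with h | ⟨_, h⟩
    · exact hΨ h
    · rw [h, natDegree_C] at hF
      exact lt_irrefl _ hF
  have hz0 : (zF F L : L) ≠ 0 := (zF F L).ne_zero
  have hR : eZ F L (rcp Ψ) = (zF F L : L) ^ Ψ.natDegree * eP F L (Ψ.comp F) := by
    rw [eZ_apply, rcp_eval₂ _ _ hz0, e_comp, ← zF_add_inv, Units.val_inv_eq_inv_val]
  have hR0 : rcp Ψ ≠ 0 := by
    intro h
    rw [h, map_zero] at hR
    exact mul_ne_zero (pow_ne_zero _ hz0) (e_ne eP_inj hcomp) hR.symm
  have h1 : pu (eZ F L) (rcp Ψ) = zF F L ^ Ψ.natDegree * pu (eP F L) (Ψ.comp F) := by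
    apply Units.ext
    rw [pu_val (eZ_inj hF) hR0, hR, Units.val_mul, Units.val_pow_eq_pow_val,
      pu_val eP_inj hcomp]
  have h2 : sy (zF F L) (pu (eZ F L) (rcp Ψ)) ∈ Fz F L := by
    refine zroots_mem hF _ _ hR0 rfl fun w hw => ⟨n, hn, ?_⟩
    have hw0 : w ≠ 0 := by
      rintro rfl
      rw [aeval_def, rcp_zero] at hw
      exact hΨ (leadingCoeff_eq_zero.1 ((map_eq_zero _).1 hw))
    rw [aeval_def, rcp_eval₂ _ _ hw0] at hw
    have h3 : aeval (w + w⁻¹) Ψ = 0 := (mul_eq_zero.1 hw).resolve_left (pow_ne_zero _ hw0)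
    apply pow_one_of hw0
    obtain ⟨R, hR⟩ := hd
    have h5 := congrArg (aeval (w + w⁻¹)) hR
    rw [map_mul, h3, zero_mul, map_sub, aeval_C, aeval_def, ← eval_map,
      map_dickson, map_one, dickson_one_one_eval_add_inv _ _ (mul_inv_cancel₀ hw0),
      sub_eq_zero] at h5
    rw [h5]
    simp
  rw [h1, sy_mul_right, sy_pow_right, sy_self, smul_zero, zero_add] at h2
  exact h2

/-- The polynomials above which `z` is a root of unity, when the degree is large. -/
theorem zπ_mem (hF : 0 < F.natDegree) {π : ℚ[X]} (hm : π.Monic) (hi : Irreducible π) {α : ℂ}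
    (hα : aeval α π = 0) {ζ : ℂ} (h0 : ζ ≠ 0) {n : ℕ} (hn : 0 < n) (hζ : ζ ^ n = 1)
    (hF1 : aeval α F = ζ + ζ⁻¹)
    (hdeg : F.natDegree ≤ (minpoly ℚ⟮(aeval α F : ℂ)⟯ α).natDegree) :
    sy (zF F L) (pu (eP F L) π) ∈ Fz F L := by
  set Ψ := minpoly ℚ (aeval α F : ℂ) with hΨ
  have hdk : aeval (aeval α F : ℂ) (dickson 1 (1 : ℚ) n - C 2) = 0 := by
    rw [hF1, map_sub, aeval_C, aeval_def, ← eval_map, map_dickson, map_one,
      dickson_one_one_eval_add_inv _ _ (mul_inv_cancel₀ h0), inv_pow, hζ]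
    norm_num
  have hΨd : Ψ ∣ dickson 1 (1 : ℚ) n - C 2 := minpoly.dvd ℚ _ hdk
  have ht := deg_tower (F := F) hm hi hα
  rw [← hΨ] at ht
  have hπ0 := hi.natDegree_pos
  have hΨ0 : Ψ ≠ 0 := by
    intro h
    rw [h, natDegree_zero, zero_mul] at ht
    omega
  have hcomp : Ψ.comp F ≠ 0 := by
    intro h
    rw [comp_eq_zero_iff] at h
    rcases h with h | ⟨_, h⟩
    · exact hΨ0 h
    · rw [h, natDegree_C] at hF
      exact lt_irrefl _ hF
  have h1 : aeval α (Ψ.comp F) = 0 := by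
    rw [aeval_comp, hΨ, minpoly.aeval]
  have hdvd : π ∣ Ψ.comp F := by
    have h2 : π = minpoly ℚ α := minpoly.eq_of_irreducible_of_monic hi hα hm
    rw [h2]
    exact minpoly.dvd ℚ _ h1
  obtain ⟨R, hR⟩ := hdvd
  have hR0 : R ≠ 0 := by
    rintro rfl
    rw [mul_zero] at hR
    exact hcomp hR
  have h3 := congrArg natDegree hR
  rw [natDegree_comp, natDegree_mul hm.ne_zero hR0, ht] at h3
  have h4 : Ψ.natDegree * F.natDegree ≤ Ψ.natDegree *
      (minpoly ℚ⟮(aeval α F : ℂ)⟯ α).natDegree := Nat.mul_le_mul_left _ hdeg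
  have h5 : R.natDegree = 0 := by omega
  obtain ⟨c, rfl⟩ := natDegree_eq_zero.1 h5
  have hc : c ≠ 0 := C_ne_zero.1 hR0
  have h6 := zcomp_mem (F := F) (L := L) hF hΨ0 hn hΨd
  rw [hR, pu_mul eP_inj hm.ne_zero hR0, sy_mul_right, pu_C eP_inj hc] at h6
  have h7 := Submodule.sub_mem _ h6 (sz_const_mem (F := F) (L := L) (Units.mk0 c hc))
  rwa [add_sub_cancel_right] at h7

end Pool.Agent.Helper537_All
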