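import Pool.Agent.Helper537_All.Root
import Pool.Agent.Helper537_Sym.Iso
set_option autoImplicit false

/-!
Roots of irreducible polynomials.
-/

namespace Pool.Agent.Helper537_All

open scoped WithZero
open Polynomial
open Pool.Agent.TH826.MK (KQ symb unitPart Unramified Torus)
open Pool.Agent.TH826.HD
open Pool.Agent.Helper537_Sym

/-- An irreducible polynomial with a rational root. -/
theorem eq_of_root {π : ℚ[X]} (hm : π.Monic) (hi : Irreducible π) {c : ℚ}
    (h : aeval (c : ℂ) π = 0) : π = X - C c := by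
  have h1 : (c : ℂ) = algebraMap ℚ ℂ c := rfl
  rw [h1, aeval_algebraMap_apply, map_eq_zero_iff _ (algebraMap ℚ ℂ).injective,
    coe_aeval_eq_eval] at h
  have h2 : X - C c ∣ π := dvd_iff_isRoot.2 h
  have h3 := (irreducible_X_sub_C c).associated_of_dvd hi h2
  exact (eq_of_monic_of_associated (monic_X_sub_C c) hm h3).symm

theorem exists_croot {π : ℚ[X]} (hi : Irreducible π) : ∃ α : ℂ, aeval α π = 0 :=
  IsAlgClosed.exists_aeval_eq_zero ℂ π (ne_of_gt (natDegree_pos_iff_degree_pos.1 hi.natDegree_pos))

end Pool.Agent.Helper537_All
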