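import Pool.Agent.Helper537_All.BassTate
import Pool.Agent.Helper537_All.Main
set_option autoImplicit false

/-!
The regulator on the unramified classes of the symbols `{z, u}`, `u` any function.
-/

namespace Pool.Agent.Helper537_All

open scoped WithZero
open Polynomial
open Pool.Agent.TH826.MK (KQ symb unitPart Unramified Torus)
open Pool.Agent.TH826.HD
open Pool.Agent.Helper537_Sym

section alg

variable {F : ℚ[X]} {L : Type*} [Field L] [Algebra (PRing F) L] [IsFractionRing (PRing F) L]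

variable (F L) in
/-- The space of the symbols `{z, u}`, `u` a function whose norm to `ℚ(x)` is a quotient of two
polynomials with the property `Q`, and of the classes invariant under the involution. -/
noncomputable def VZ (Q : ℚ[X] → Prop) : Submodule ℚ (KQ L 2) :=
  Submodule.span ℚ {s | ∃ u : Lˣ, (∃ P R : ℚ[X], R ≠ 0 ∧ Q P ∧ Q R ∧
    (u : L) * sig F L u = algebraMap (PRing F) L (ppol F P) / algebraMap (PRing F) L (ppol F R)) ∧
      s = symb ![zF F L, u]} ⊔ LinearMap.eqLocus (KQ.map 2 (sig F L)) LinearMap.id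

theorem vz_sub {Q : ℚ[X] → Prop} {κ : KQ L 2} (h : κ ∈ VZ F L Q) :
    κ - KQ.map 2 (sig F L) κ ∈ Zq F L Q := by
  have h1 : VZ F L Q ≤ (Zq F L Q).comap (LinearMap.id - KQ.map 2 (sig F L)) := by
    unfold VZ
    refine sup_le ?_ ?_
    · rw [Submodule.span_le]
      rintro _ ⟨u, ⟨P, R, hR, hQP, hQR, h1⟩, rfl⟩
      show sy (zF F L) u - KQ.map 2 (sig F L) (sy (zF F L) u) ∈ Zq F L Q
      have hR' : eP F L R ≠ 0 := e_ne eP_inj hR
      have hP : P ≠ 0 := by
        rintro rfl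
        rw [map_zero, map_zero, zero_div] at h1
        exact (nrm F u).ne_zero h1
      rw [map_sy', sig_zu, sy_inv_left, sub_neg_eq_add, ← sy_mul_right]
      have h2 : u * Units.map (sig F L : L →* L) u = pu (eP F L) P * (pu (eP F L) R)⁻¹ := by
        rw [eq_mul_inv_iff_mul_eq]
        apply Units.ext
        rw [Units.val_mul, pu_val eP_inj hR, pu_val eP_inj hP]
        have h3 : ((u * Units.map (sig F L : L →* L) u : Lˣ) : L) = eP F L P / eP F L R := h1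
        rw [h3, div_mul_cancel₀ _ hR']
      rw [h2, sy_mul_right, sy_inv_right]
      exact Submodule.add_mem _ (Submodule.subset_span ⟨P, hP, hQP, rfl⟩)
        (Submodule.neg_mem _ (Submodule.subset_span ⟨R, hR, hQR, rfl⟩))
    · intro κ hκ
      have h2 : KQ.map 2 (sig F L) κ = κ := hκ
      show κ - KQ.map 2 (sig F L) κ ∈ Zq F L Q
      rw [h2, sub_self]
      exact Submodule.zero_mem _
  exact h1 h

theorem vz_unr {Q : ℚ[X] → Prop} {κ : KQ L 2} (h : κ ∈ VZ F L Q) (hu : κ ∈ Unramified L 2) :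
    κ ∈ Zq F L Q := by
  have h1 := vz_sub h
  rw [unr_sig hu, sub_neg_eq_add] at h1
  have h2 := Submodule.smul_mem _ (2 : ℚ)⁻¹ h1
  rwa [← two_smul ℚ κ, smul_smul, inv_mul_cancel₀ two_ne_zero, one_smul] at h2

theorem clsZ_eq {g : ℕ} {b : Fin (g + 1) → ℚ} {Q : ℚ[X] → Prop}
    (hE : Ez F L b ≤ Unramified L 2)
    (hinf : ∃ v : Valuation L ℤᵐ⁰, Function.Surjective v ∧
      (∀ q : ℚ, q ≠ 0 → v (ec (eP F L) q) = 1) ∧ ord v (zF F L) ≠ 0)
    (hQ1 : Q 1) (hQb : ∀ i, Q ((X - C (b i)) ^ 2))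
    (hQ : ∀ P : ℚ[X], P ≠ 0 → Q P → ∀ π : ℚ[X], π.Monic → Irreducible π → π ∣ P →
      sy (zF F L) (pu (eP F L) π) ∈ Fz F L ⊔ (Nb F L ⊔ Ez F L b)) :
    VZ F L Q ⊓ Unramified L 2 = Ez F L b := by
  refine le_antisymm ?_ (le_inf ?_ hE)
  · rintro s ⟨h1, h2⟩
    refine z_part hE hinf ?_ h2
    have h9 : Zq F L Q ≤ Fz F L ⊔ (Nb F L ⊔ Ez F L b) := by
      unfold Zq
      rw [Submodule.span_le]
      rintro _ ⟨P, hP, hQP, rfl⟩
      exact zpoly_mem le_sup_left _ P hP rfl (hQ P hP hQP)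
    exact h9 (vz_unr h1 h2)
  · unfold Ez
    rw [Submodule.span_le]
    rintro _ ⟨k, rfl⟩
    have hb : ∀ i, sy (zF F L) (pu (eP F L) (X - C (b i))) ∈ VZ F L Q := by
      intro i
      refine (le_sup_left : _ ≤ VZ F L Q) (Submodule.subset_span ⟨_, ⟨(X - C (b i)) ^ 2, 1,
        one_ne_zero, hQb i, hQ1, ?_⟩, rfl⟩)
      rw [pu_val eP_inj (X_sub_C_ne_zero _), sig_eP, map_one, map_one, div_one]
      show eP F L (X - C (b i)) * eP F L (X - C (b i)) = eP F L ((X - C (b i)) ^ 2)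
      rw [map_pow, sq]
    exact Submodule.sub_mem _ (hb _) (hb _)

end alg

variable {g : ℕ} {F : ℚ[X]} {b : Fin (g + 1) → ℚ} {lam : ℚ} {t : ℤ} {ρ η : ℝ}

theorem exists_f (H : Fm b F lam t) (L : Type*) [Field L] [Algebra (PRing F) L]
    [IsFractionRing (PRing F) L] : ∃ f : POpen F b →+* L,
      (∀ r, f (toP F b r) = algebraMap (PRing F) L r) ∧
      ∀ k : Fin g, ek f k = sy (zF F L) (pu (eP F L) (X - C (b k.succ))) -
        sy (zF F L) (pu (eP F L) (X - C (b 0))) := by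
  have hinj : Function.Injective (algebraMap (PRing F) L) := IsFractionRing.injective _ _
  have hne : algebraMap (PRing F) L (pDel F b) ≠ 0 := by
    rw [Ne, map_eq_zero_iff _ hinj]
    exact pDel_ne_zero b
  set f : POpen F b →+* L := liftP (algebraMap (PRing F) L) hne with hf0
  have hfa : ∀ r, f (toP F b r) = algebraMap (PRing F) L r := fun r => liftP_toP _ _ _
  have hf : Inj f := by
    intro r hr
    rw [hfa] at hr
    exact (injective_iff_map_eq_zero _).1 hinj r hr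
  have hz : zL f = zF F L := by
    apply Units.ext
    rw [zL_val]
    exact hfa _
  have hx : ∀ c : ℚ, xL hf c = pu (eP F L) (X - C c) := by
    intro c
    apply Units.ext
    rw [pu_val eP_inj (X_sub_C_ne_zero _), ← f_ppol_sub hf, hfa]
    rfl
  refine ⟨f, hfa, fun k => ?_⟩
  rw [ek_eq hf, hz, hx, hx]

theorem main1 (H : Fm b F lam t)
    (hFi : ∀ i, IsIntegral ℤ (F.coeff i)) (hbi : ∀ m, IsIntegral ℤ (b m))
    (ht : ∀ m, ∃ (ζ : ℂ) (k : ℕ), k ≠ 0 ∧ ζ ^ k = 1 ∧ emC (F.eval (b m)) = ζ + ζ⁻¹)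
    (L : Type*) [Field L] [Algebra (PRing F) L] [IsFractionRing (PRing F) L]
    {Q : ℚ[X] → Prop} (hQ1 : Q 1) (hQb : ∀ i, Q ((X - C (b i)) ^ 2))
    (hQ : ∀ P : ℚ[X], P ≠ 0 → Q P → ∀ π : ℚ[X], π.Monic → Irreducible π → π ∣ P →
      π ∉ TB F L → (∃ i, π = X - C (b i)) ∨ sy (zF F L) (pu (eP F L) π) ∈ Fz F L) :
    VZ F L Q ⊓ Unramified L 2 = Ez F L b := by
  have hdeg : 0 < F.natDegree := by
    rw [H.natDegree]
    exact Nat.succ_pos g
  obtain ⟨f, hfa, hek⟩ := exists_f H L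
  have hE : ∀ k, ek f k ∈ Unramified L 2 := fun k =>
    Pool.Agent.TH826.UH.symb_mem_unramified f emC hFi hbi k.succ 0 ht
  have hEU : Ez F L b ≤ Unramified L 2 := by
    unfold Ez
    rw [Submodule.span_le]
    rintro _ ⟨k, rfl⟩
    have h1 := hE k
    rw [hek k] at h1
    exact h1
  refine clsZ_eq hEU (exists_inf hdeg) hQ1 hQb fun P hP hQP π hm hi hd => ?_
  by_cases hπ : π ∈ TB F L
  · refine (le_sup_right : Nb F L ⊔ Ez F L b ≤ _) ((le_sup_left : Nb F L ≤ _) ?_)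
    exact Submodule.subset_span ⟨⟨π, hπ⟩, rfl⟩
  · rcases hQ P hP hQP π hm hi hd hπ with ⟨i, rfl⟩ | h
    · have h1 := zb_mem (F := F) (L := L) H i
      refine (sup_le le_sup_left ?_ : Fz F L ⊔ Ez F L b ≤ _) h1
      exact le_sup_right.trans (le_sup_right : Nb F L ⊔ Ez F L b ≤ _)
    · exact (le_sup_left : Fz F L ≤ _) h

theorem main2 (H : Fm b F lam t)
    (hS : Pool.Agent.TH826.UH.Sepd (F.map emC) (fun j => emC (b j)) ρ η)
    (d : Fin (g + 1) → Fin (g + 1) → ℝ)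
    (hd : ∀ i j, i ≠ j → 0 < d i j ∧ ρ + d i j ≤ ‖emC (b j) - emC (b i)‖)
    (hcrit : ∀ p q, p ≠ q → 0 ≤ Real.log ‖(F.map emC).leadingCoeff‖ + Real.log (d p q) +
      Real.log (d q p) + ∑ j ∈ (Finset.univ.erase p).erase q, Real.log (min (d p j) (d q j)))
    (ht : ∀ m, ∃ (ζ : ℂ) (k : ℕ), k ≠ 0 ∧ ζ ^ k = 1 ∧ emC (F.eval (b m)) = ζ + ζ⁻¹)
    (L : Type*) [Field L] [Algebra (PRing F) L] [IsFractionRing (PRing F) L] :
    Module.finrank ℚ (Ez F L b) = g ∧
      ∃ Γ : Fin g → Torus L 1, Function.Bijective (regR Γ (Ez F L b)) := by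
  have hdeg : 0 < F.natDegree := by
    rw [H.natDegree]
    exact Nat.succ_pos g
  obtain ⟨f, hfa, hek⟩ := exists_f H L
  have hEE : Ez F L b = Submodule.span ℚ (Set.range (ek f)) := by
    unfold Ez
    congr 2
    funext k
    exact (hek k).symm
  have ht' : ∀ i, ∃ ζ : ℂ, ‖ζ‖ = 1 ∧ emC (F.eval (b i)) = ζ + ζ⁻¹ := by
    intro i
    obtain ⟨ζ, k, hk, h1, h2⟩ := ht i
    refine ⟨ζ, ?_, h2⟩
    have h3 := congrArg norm h1
    rw [norm_pow, norm_one] at h3
    exact (pow_eq_one_iff_of_nonneg (norm_nonneg _) hk).1 h3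
  obtain ⟨Γ, hΓ⟩ := exists_loops hdeg hS d hd hcrit ht' f hfa
  obtain ⟨h1, h2⟩ := bijective_regR Γ (ek f) hΓ
  rw [hEE]
  exact ⟨h1, Γ, h2⟩

end Pool.Agent.Helper537_All
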