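import Mathlib
set_option autoImplicit false

/-!
A Newton polygon argument: the degree of a root of `lam ∏ (x - b_i) = s`, where the `b_i` are
integral and `s` is a unit.
-/

namespace Pool.Agent.Helper537_All

open scoped WithZero
open Polynomial

theorem newton {k : Type*} [Field k] [Algebra k ℂ] (v : Valuation k ℤᵐ⁰) {α : ℂ}
    (hα : IsIntegral k α) {N : ℕ} {lam s : k} {b : Fin N → k} (hb : ∀ i, v (b i) ≤ 1)
    (hs : v s = 1) (hl : v lam < 1) (hl0 : lam ≠ 0)
    (h : algebraMap k ℂ lam * ∏ i, (α - algebraMap k ℂ (b i)) = algebraMap k ℂ s) :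
    (N : ℤ) ∣ (minpoly k α).natDegree * WithZero.log (v lam) := by
  obtain ⟨B, hB, hloc⟩ := IsLocalRing.exists_factor_valuationRing
    ((algebraMap k ℂ).comp v.valuationSubring.subtype)
  set w := B.valuation with hw
  have hle : ∀ x : k, v x ≤ 1 → w (algebraMap k ℂ x) ≤ 1 := by
    intro x hx
    rw [hw, B.valuation_le_one_iff]
    exact hB ⟨x, (v.mem_valuationSubring_iff _).2 hx⟩
  have hone : ∀ x : k, v x = 1 → w (algebraMap k ℂ x) = 1 := by
    intro x hx
    have hx0 : x ≠ 0 := by
      rintro rfl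
      rw [map_zero] at hx
      exact zero_ne_one hx
    refine le_antisymm (hle x hx.le) ?_
    have h1 := hle x⁻¹ (by rw [map_inv₀, hx, inv_one])
    rw [map_inv₀, map_inv₀] at h1
    have h2 : w (algebraMap k ℂ x) ≠ 0 := by
      rw [Valuation.ne_zero_iff]
      exact (_root_.map_ne_zero _).2 hx0
    exact (inv_le_one₀ (zero_lt_iff.2 h2)).1 h1
  have hlt : ∀ x : k, v x < 1 → w (algebraMap k ℂ x) < 1 := by
    intro x hx
    refine lt_of_le_of_ne (hle x hx.le) fun h1 => ?_
    have hx' : x ∈ v.valuationSubring := (v.mem_valuationSubring_iff _).2 hx.le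
    have h2 : IsUnit ((((algebraMap k ℂ).comp v.valuationSubring.subtype).codRestrict
        B.toSubring hB) ⟨x, hx'⟩) := by
      have h3 : IsUnit (⟨algebraMap k ℂ x, hB ⟨x, hx'⟩⟩ : B) :=
        (B.valuation_eq_one_iff _).2 h1
      exact h3
    have h4 := hloc.map_nonunit _ h2
    have h5 : v x = 1 := by
      obtain ⟨u, hu⟩ := h4
      have h6 : ((u : v.valuationSubring) : k) = x := congrArg Subtype.val hu
      have h7 : v ((u : v.valuationSubring) : k) * v (((u⁻¹ : (v.valuationSubring)ˣ) :
          v.valuationSubring) : k) = 1 := by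
        rw [← map_mul]
        have h8 : ((u : v.valuationSubring) : k) * (((u⁻¹ : (v.valuationSubring)ˣ) :
            v.valuationSubring) : k) = 1 := congrArg Subtype.val (Units.mul_inv u)
        rw [h8, map_one]
      have h8 : v (((u⁻¹ : (v.valuationSubring)ˣ) : v.valuationSubring) : k) ≤ 1 :=
        (v.mem_valuationSubring_iff _).1 (Subtype.mem _)
      rw [h6] at h7
      refine le_antisymm hx.le ?_
      calc (1 : ℤᵐ⁰) = _ := h7.symm
        _ ≤ v x * 1 := mul_le_mul_right h8 _
        _ = v x := mul_one _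
    exact hx.ne h5
  have hiff : ∀ x : k, x ≠ 0 → w (algebraMap k ℂ x) = 1 → v x = 1 := by
    intro x hx0 hx
    rcases lt_trichotomy (v x) 1 with h1 | h1 | h1
    · exact absurd hx (hlt x h1).ne
    · exact h1
    · exfalso
      have h2 := hlt x⁻¹ (by rw [map_inv₀]; exact inv_lt_one_of_one_lt₀ h1)
      rw [map_inv₀, map_inv₀, hx, inv_one] at h2
      exact lt_irrefl _ h2
  have key : ∀ β : ℂ, algebraMap k ℂ lam * ∏ i, (β - algebraMap k ℂ (b i)) = algebraMap k ℂ s →
      w (algebraMap k ℂ lam) * w β ^ N = 1 := by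
    intro β hβ
    have h1 : w (algebraMap k ℂ s) = 1 := hone s hs
    rw [← hβ, map_mul, map_prod] at h1
    have hβ1 : 1 < w β := by
      by_contra hn
      rw [not_lt] at hn
      have h2 : ∏ i, w (β - algebraMap k ℂ (b i)) ≤ 1 := by
        refine Finset.prod_le_one' fun i _ => ?_
        exact (w.map_sub _ _).trans (max_le hn (hle _ (hb i)))
      have h3 : w (algebraMap k ℂ lam) * ∏ i, w (β - algebraMap k ℂ (b i)) < 1 :=
        mul_lt_one_of_lt_of_le (hlt _ hl) h2
      exact h3.ne h1
    have h2 : ∀ i, w (β - algebraMap k ℂ (b i)) = w β := fun i =>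
      Valuation.map_sub_eq_of_lt_left w ((hle _ (hb i)).trans_lt hβ1)
    rw [Finset.prod_congr rfl fun i _ => h2 i, Finset.prod_const, Finset.card_univ,
      Fintype.card_fin] at h1
    exact h1
  rcases Nat.eq_zero_or_pos N with hN | hN
  · subst hN
    have h1 := key α h
    rw [pow_zero, mul_one] at h1
    exact absurd h1 (hlt _ hl).ne
  have hroots : ∀ β ∈ ((minpoly k α).map (algebraMap k ℂ)).roots, w β = w α := by
    intro β hβ
    have hβ0 : aeval β (minpoly k α) = 0 := by
      rw [mem_roots ((minpoly.monic hα).map _).ne_zero, IsRoot.def, eval_map_algebraMap] at hβ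
      exact hβ
    have h1 : aeval α (C lam * ∏ i, (X - C (b i)) - C s) = 0 := by
      rw [map_sub, map_mul, map_prod, aeval_C, aeval_C]
      simp only [map_sub, aeval_X, aeval_C]
      rw [h, sub_self]
    obtain ⟨R, hR⟩ := minpoly.dvd k α h1
    have h2 : aeval β (C lam * ∏ i, (X - C (b i)) - C s) = 0 := by
      rw [hR, map_mul, hβ0, zero_mul]
    rw [map_sub, map_mul, map_prod, aeval_C, aeval_C] at h2
    simp only [map_sub, aeval_X, aeval_C] at h2
    have h3 := key β (sub_eq_zero.1 h2)
    have h4 := key α h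
    have h5 : w (algebraMap k ℂ lam) ≠ 0 := by
      rw [Valuation.ne_zero_iff]
      exact (_root_.map_ne_zero _).2 hl0
    have h6 : w β ^ N = w α ^ N := mul_left_cancel₀ h5 (h3.trans h4.symm)
    exact (pow_left_inj₀ zero_le zero_le hN.ne').1 h6
  set n := (minpoly k α).natDegree with hn
  set ν := (minpoly k α).coeff 0 with hν
  have hsplit : ((minpoly k α).map (algebraMap k ℂ)).Splits := IsAlgClosed.splits _
  have hcard : ((minpoly k α).map (algebraMap k ℂ)).roots.card = n := by
    rw [← hsplit.natDegree_eq_card_roots, natDegree_map]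
  have hprod : w (algebraMap k ℂ ν) = w α ^ n := by
    have h1 := hsplit.coeff_zero_eq_prod_roots_of_monic ((minpoly.monic hα).map _)
    rw [coeff_map] at h1
    rw [hν, h1, map_mul, map_pow, Valuation.map_neg, map_one, one_pow, one_mul,
      map_multiset_prod, Multiset.map_congr rfl hroots, Multiset.map_const', Multiset.prod_replicate,
      hcard]
  have h4 := key α h
  have hα0 : w α ≠ 0 := by
    intro h0
    rw [h0, zero_pow hN.ne', mul_zero] at h4
    exact zero_ne_one h4
  have hν0 : ν ≠ 0 := by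
    intro h0
    rw [h0, map_zero, map_zero] at hprod
    exact pow_ne_zero n hα0 hprod.symm
  have h5 : v (ν ^ N * lam ^ n) = 1 := by
    apply hiff _ (mul_ne_zero (pow_ne_zero _ hν0) (pow_ne_zero _ hl0))
    rw [map_mul, map_pow, map_pow, map_mul, map_pow, map_pow, hprod, ← pow_mul, mul_comm n N,
      pow_mul, ← mul_pow, mul_comm, h4, one_pow]
  have h6 := congrArg WithZero.log h5
  have hvν : v ν ≠ 0 := (Valuation.ne_zero_iff v).2 hν0
  have hvl : v lam ≠ 0 := (Valuation.ne_zero_iff v).2 hl0
  rw [map_mul, map_pow, map_pow, WithZero.log_mul (pow_ne_zero _ hvν) (pow_ne_zero _ hvl),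
    WithZero.log_pow, WithZero.log_pow, WithZero.log_one] at h6
  refine ⟨-WithZero.log (v ν), ?_⟩
  simp only [nsmul_eq_mul] at h6
  linarith

end Pool.Agent.Helper537_All
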