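import Pool.Agent.Y94.UG.Crit
set_option autoImplicit false

/-!
The numerical criteria for different integers: at least five integers and a leading coefficient of
absolute value at least `10`.
-/

namespace Pool.Agent.Helper537_All

open Pool.Agent.Y94.UG

theorem prod_core5 {q : ℝ} (hq : |q| ≤ 1 / 2) :
    (46 / 100 : ℝ) ≤ ∏ d ∈ Finset.Icc (-2 : ℤ) 2, av q d := by
  have e : Finset.Icc (-2 : ℤ) 2 = {-2, -1, 0, 1, 2} := by decide
  rw [e]
  have hq1 := abs_le.1 hq
  rw [Finset.prod_insert (by decide), Finset.prod_insert (by decide),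
    Finset.prod_insert (by decide), Finset.prod_insert (by decide), Finset.prod_singleton]
  unfold av
  simp only [show (-2 : ℤ) ≠ 0 by decide, show (-1 : ℤ) ≠ 0 by decide,
    show (1 : ℤ) ≠ 0 by decide, show (2 : ℤ) ≠ 0 by decide, if_false, if_true]
  push_cast
  rw [show |q - -2| = q + 2 by rw [abs_of_pos (by linarith)]; ring,
    show |q - -1| = q + 1 by rw [abs_of_pos (by linarith)]; ring,
    show |q - 1| = 1 - q by rw [abs_of_neg (by linarith)]; ring,
    show |q - 2| = 2 - q by rw [abs_of_neg (by linarith)]; ring]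
  have h2 : (q + 2) * ((q + 1) * (max |q| (1 / 8) * ((1 - q) * (2 - q)))) =
      (max |q| (1 / 8) * (1 - q ^ 2)) * (4 - q ^ 2) := by ring
  rw [h2]
  have hq2 : q ^ 2 ≤ 1 / 4 := by nlinarith
  have h3 : (63 / 512 : ℝ) ≤ max |q| (1 / 8) * (1 - q ^ 2) := by
    rcases le_total |q| (1 / 8) with h | h
    · rw [max_eq_right h]
      have : q ^ 2 ≤ 1 / 64 := by
        have h4 := abs_le.1 h
        nlinarith
      linarith
    · rw [max_eq_left h, ← sq_abs q]
      have h5 : 0 ≤ (|q| - 1 / 8) * (1 / 2 - |q|) :=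
        mul_nonneg (by linarith) (by linarith)
      have h6 := mul_nonneg (abs_nonneg q) h5
      nlinarith
  have h4 : (15 / 4 : ℝ) ≤ 4 - q ^ 2 := by linarith
  calc (46 / 100 : ℝ) ≤ 63 / 512 * (15 / 4) := by norm_num
    _ ≤ _ := mul_le_mul h3 h4 (by norm_num) (le_trans (by norm_num) h3)

/-- The product of the distances of a complex number to at least five different integers, none of
them nearer than `1/8`, is at least `0.46`. -/
theorem prod_dist5 {g : ℕ} (hg : 4 ≤ g) {b : Fin (g + 1) → ℤ} (hb : Function.Injective b) {x : ℂ}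
    (hx : ∀ i, (1 / 8 : ℝ) ≤ ‖x - (b i : ℂ)‖) :
    (46 / 100 : ℝ) ≤ ∏ i, ‖x - (b i : ℂ)‖ := by
  set n : ℤ := round x.re with hn
  set q : ℝ := x.re - n with hqdef
  have hq : |q| ≤ 1 / 2 := abs_sub_round _
  have hinj : Function.Injective fun i => b i - n := fun i j h => hb (by
    have : b i - n = b j - n := h
    omega)
  set D : Finset ℤ := Finset.univ.image fun i => b i - n with hD
  have hcard : (Finset.Icc (-2 : ℤ) 2).card ≤ D.card := by
    rw [hD, Finset.card_image_of_injective _ hinj, Finset.card_univ, Fintype.card_fin]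
    have : (Finset.Icc (-2 : ℤ) 2).card = 5 := by decide
    omega
  have hq1 := abs_le.1 hq
  have h1 := prod_le_prod_swap D (Finset.Icc (-2 : ℤ) 2) (av q) (c := 5 / 2) (by norm_num) hcard
    (av_pos hq) (fun d hd => ?_) (fun d hd => ?_)
  · refine (prod_core5 hq).trans (h1.trans ?_)
    rw [hD, Finset.prod_image fun i _ j _ h => hinj h]
    refine Finset.prod_le_prod (fun i _ => (av_pos hq _).le) fun i _ => ?_
    have h2 : |x.re - (b i : ℝ)| ≤ ‖x - (b i : ℂ)‖ := by
      have := Complex.abs_re_le_norm (x - (b i : ℂ))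
      simpa using this
    unfold av
    split_ifs with h
    · refine max_le ?_ (hx i)
      have h3 : b i = n := by omega
      rw [hqdef, ← h3]
      exact h2
    · have h3 : q - ((b i - n : ℤ) : ℝ) = x.re - b i := by
        rw [hqdef]
        push_cast
        ring
      rw [h3]
      exact h2
  · rw [Finset.mem_Icc] at hd
    unfold av
    split_ifs with h
    · exact max_le (by linarith) (by norm_num)
    · have h2 : (-2 : ℝ) ≤ d := by exact_mod_cast hd.1
      have h3 : (d : ℝ) ≤ 2 := by exact_mod_cast hd.2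
      rw [abs_le]
      constructor <;> linarith
  · rw [Finset.mem_Icc] at hd
    have h : d ≠ 0 := by
      rintro rfl
      exact hd ⟨by norm_num, by norm_num⟩
    unfold av
    rw [if_neg h]
    rcases lt_or_gt_of_ne h with h' | h'
    · have h2 : d ≤ -3 := by
        by_contra hcon
        exact hd ⟨by omega, by omega⟩
      have h3 : (d : ℝ) ≤ -3 := by exact_mod_cast h2
      rw [abs_of_pos (by linarith)]
      linarith
    · have h2 : 3 ≤ d := by
        by_contra hcon
        exact hd ⟨by omega, by omega⟩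
      have h3 : (3 : ℝ) ≤ d := by exact_mod_cast h2
      rw [abs_of_neg (by linarith)]
      linarith

/-- The criterion for different integers and a factor `L ≥ 2`. -/
theorem crit2 {g : ℕ} {b : Fin (g + 1) → ℤ} (hb : Function.Injective b) {L : ℝ} (hL : 2 ≤ L)
    (p q : Fin (g + 1)) (hpq : p ≠ q) :
    0 ≤ Real.log L + Real.log (|(b p : ℝ) - b q| - 1 / 8) +
      Real.log (|(b q : ℝ) - b p| - 1 / 8) +
      ∑ j ∈ (Finset.univ.erase p).erase q,
        Real.log (min (|(b p : ℝ) - b j| - 1 / 8) (|(b q : ℝ) - b j| - 1 / 8)) := by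
  set a : ℝ := Real.log (7 / 8) with ha
  have hfact : 0 ≤ Real.log L + 4 * a := by
    have h1 : 4 * a = Real.log ((7 / 8) ^ 4) := by
      rw [Real.log_pow]
      push_cast
      ring
    rw [h1, ← Real.log_mul (by linarith) (by norm_num)]
    refine Real.log_nonneg ?_
    nlinarith
  have ha0 : a ≤ 0 := Real.log_nonpos (by norm_num) (by norm_num)
  have hcast : ∀ i j, |(b i : ℝ) - b j| = ((|b i - b j| : ℤ) : ℝ) := fun i j => by push_cast; rfl
  have hone : ∀ i j, i ≠ j → (1 : ℤ) ≤ |b i - b j| := fun i j h =>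
    Int.one_le_abs (sub_ne_zero.2 (hb.ne h))
  have hge1 : ∀ i j, i ≠ j → (7 / 8 : ℝ) ≤ |(b i : ℝ) - b j| - 1 / 8 := by
    intro i j h
    rw [hcast]
    have h1 : (1 : ℝ) ≤ ((|b i - b j| : ℤ) : ℝ) := by exact_mod_cast hone i j h
    linarith
  have hge2 : ∀ i j, 2 ≤ |b i - b j| → (15 / 8 : ℝ) ≤ |(b i : ℝ) - b j| - 1 / 8 := by
    intro i j h
    rw [hcast]
    have h1 : (2 : ℝ) ≤ ((|b i - b j| : ℤ) : ℝ) := by exact_mod_cast h
    linarith
  set T : Finset (Fin (g + 1)) := (Finset.univ.erase p).erase q with hT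
  set N : Finset (Fin (g + 1)) := T.filter fun j => |b p - b j| = 1 ∨ |b q - b j| = 1 with hN
  have hmemT : ∀ j ∈ T, p ≠ j ∧ q ≠ j := fun j hj =>
    ⟨(Finset.ne_of_mem_erase (Finset.mem_of_mem_erase hj)).symm,
      (Finset.ne_of_mem_erase hj).symm⟩
  have hNT : N ⊆ T := Finset.filter_subset _ _
  have hsum : (N.card : ℝ) * a ≤
      ∑ j ∈ T, Real.log (min (|(b p : ℝ) - b j| - 1 / 8) (|(b q : ℝ) - b j| - 1 / 8)) := by
    rw [← Finset.sum_sdiff hNT]
    have h1 : 0 ≤ ∑ j ∈ T \ N, Real.log (min (|(b p : ℝ) - b j| - 1 / 8)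
        (|(b q : ℝ) - b j| - 1 / 8)) := by
      refine Finset.sum_nonneg fun j hj => ?_
      obtain ⟨hj1, hj2⟩ := Finset.mem_sdiff.1 hj
      obtain ⟨h1, h2⟩ := hmemT j hj1
      have h3 : ¬ (|b p - b j| = 1 ∨ |b q - b j| = 1) := fun h =>
        hj2 (Finset.mem_filter.2 ⟨hj1, h⟩)
      push Not at h3
      have h4 := hone p j h1
      have h5 := hone q j h2
      refine Real.log_nonneg (le_trans (by norm_num : (1 : ℝ) ≤ 15 / 8)
        (le_min (hge2 p j (by omega)) (hge2 q j (by omega))))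
    have h2 : (N.card : ℝ) * a ≤ ∑ j ∈ N, Real.log (min (|(b p : ℝ) - b j| - 1 / 8)
        (|(b q : ℝ) - b j| - 1 / 8)) := by
      rw [← nsmul_eq_mul]
      refine Finset.card_nsmul_le_sum _ _ _ fun j hj => ?_
      obtain ⟨h1, h2⟩ := hmemT j (hNT hj)
      exact Real.log_le_log (by norm_num) (le_min (hge1 p j h1) (hge1 q j h2))
    linarith
  have hcardim : ∀ S : Finset ℤ, (∀ j ∈ N, b j ∈ S) → N.card ≤ S.card := by
    intro S hS
    rw [← Finset.card_image_of_injective N hb]
    refine Finset.card_le_card fun y hy => ?_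
    obtain ⟨j, hj, rfl⟩ := Finset.mem_image.1 hy
    exact hS j hj
  have hNmem : ∀ j ∈ N, b j ≠ b p ∧ b j ≠ b q ∧ (|b p - b j| = 1 ∨ |b q - b j| = 1) := by
    intro j hj
    obtain ⟨h1, h2⟩ := hmemT j (hNT hj)
    exact ⟨(hb.ne h1).symm, (hb.ne h2).symm, (Finset.mem_filter.1 hj).2⟩
  by_cases h1 : |b p - b q| = 1
  · have hN2 : N.card ≤ 2 := by
      rcases (abs_eq (by norm_num : (0 : ℤ) ≤ 1)).1 h1 with h2 | h2
      · refine (hcardim {b p + 1, b q - 1} fun j hj => ?_).trans Finset.card_le_two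
        obtain ⟨h3, h4, h5⟩ := hNmem j hj
        rw [Finset.mem_insert, Finset.mem_singleton]
        rcases h5 with h5 | h5 <;>
          rcases (abs_eq (by norm_num : (0 : ℤ) ≤ 1)).1 h5 with h6 | h6 <;> omega
      · refine (hcardim {b p - 1, b q + 1} fun j hj => ?_).trans Finset.card_le_two
        obtain ⟨h3, h4, h5⟩ := hNmem j hj
        rw [Finset.mem_insert, Finset.mem_singleton]
        rcases h5 with h5 | h5 <;>
          rcases (abs_eq (by norm_num : (0 : ℤ) ≤ 1)).1 h5 with h6 | h6 <;> omega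
    have h2 : a ≤ Real.log (|(b p : ℝ) - b q| - 1 / 8) :=
      Real.log_le_log (by norm_num) (hge1 p q hpq)
    have h3 : a ≤ Real.log (|(b q : ℝ) - b p| - 1 / 8) :=
      Real.log_le_log (by norm_num) (hge1 q p hpq.symm)
    have h4 : (N.card : ℝ) ≤ 2 := by exact_mod_cast hN2
    have h6 : 2 * a ≤ (N.card : ℝ) * a := mul_le_mul_of_nonpos_right h4 ha0
    linarith
  · have h0 := hone p q hpq
    have h0' : |b q - b p| = |b p - b q| := abs_sub_comm _ _
    have hN4 : N.card ≤ 4 := by
      refine (hcardim {b p - 1, b p + 1, b q - 1, b q + 1} fun j hj => ?_).trans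
        Finset.card_le_four
      obtain ⟨h3, h4, h5⟩ := hNmem j hj
      simp only [Finset.mem_insert, Finset.mem_singleton]
      rcases h5 with h5 | h5 <;>
        rcases (abs_eq (by norm_num : (0 : ℤ) ≤ 1)).1 h5 with h6 | h6 <;> omega
    have h2 : 0 ≤ Real.log (|(b p : ℝ) - b q| - 1 / 8) :=
      Real.log_nonneg (le_trans (by norm_num : (1 : ℝ) ≤ 15 / 8) (hge2 p q (by omega)))
    have h3 : 0 ≤ Real.log (|(b q : ℝ) - b p| - 1 / 8) :=
      Real.log_nonneg (le_trans (by norm_num : (1 : ℝ) ≤ 15 / 8) (hge2 q p (by omega)))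
    have h4 : (N.card : ℝ) ≤ 4 := by exact_mod_cast hN4
    have h6 : 4 * a ≤ (N.card : ℝ) * a := mul_le_mul_of_nonpos_right h4 ha0
    linarith

end Pool.Agent.Helper537_All
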