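import Pool.Agent.Helper537_Sym.Indep
set_option autoImplicit false

/-!
Functionals on `K_2` from the residue field of a discrete valuation.
-/

namespace Pool.Agent.Helper537_All

open scoped WithZero
open Polynomial
open Pool.Agent.TH826.MK (KQ symb unitPart Unramified)
open Pool.Agent.Helper537_Sym

/-- Additive functions on a subgroup of a commutative group extend. -/
theorem exists_extend {A B : Type*} [CommGroup A] [CommGroup B] (φ : A →* B)
    (hφ : Function.Injective φ) (χ : A → ℚ) (hχ : ∀ a b, χ (a * b) = χ a + χ b) :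
    ∃ ψ : B → ℚ, (∀ a b, ψ (a * b) = ψ a + ψ b) ∧ ∀ a, ψ (φ a) = χ a := by
  have hχ1 : χ 1 = 0 := by
    have := hχ 1 1
    rw [one_mul] at this
    linarith
  let g : Additive A →+ ℚ :=
    { toFun := fun p => χ p.toMul
      map_zero' := hχ1
      map_add' := fun a b => hχ _ _ }
  obtain ⟨h, hh⟩ := Module.Baer.extension_property_addMonoidHom (Module.Baer.of_divisible ℚ)
    (MonoidHom.toAdditive φ) hφ g
  refine ⟨fun b => h (Additive.ofMul b), fun a b => ?_, fun a => ?_⟩
  · show h (Additive.ofMul (a * b)) = h (Additive.ofMul a) + h (Additive.ofMul b)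
    rw [ofMul_mul, map_add]
  · exact DFunLike.congr_fun hh (Additive.ofMul a)

/-- An element of infinite order is detected by an additive function. -/
theorem exists_detect {B : Type*} [CommGroup B] (u : B) (hu : ∀ n : ℕ, u ^ n = 1 → n = 0) :
    ∃ ψ : B → ℚ, (∀ a b, ψ (a * b) = ψ a + ψ b) ∧ ψ u = 1 := by
  obtain ⟨ψ, h1, h2⟩ := exists_extend (zpowersHom B u) (by
    rw [injective_iff_map_eq_one]
    intro n hn
    rw [zpowersHom_apply] at hn
    obtain ⟨k, hk | hk⟩ := (Multiplicative.toAdd n).eq_nat_or_neg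
    · rw [hk, zpow_natCast] at hn
      have h0 := hu k hn
      rw [h0] at hk
      exact hk
    · rw [hk, zpow_neg, inv_eq_one, zpow_natCast] at hn
      have h0 := hu k hn
      rw [h0] at hk
      exact hk) (fun n => ((Multiplicative.toAdd n : ℤ) : ℚ)) (fun a b => by
        rw [toAdd_mul, Int.cast_add])
  refine ⟨ψ, h1, ?_⟩
  have h3 := h2 (Multiplicative.ofAdd 1)
  rw [zpowersHom_apply, toAdd_ofAdd, zpow_one, Int.cast_one] at h3
  exact h3

variable {L : Type*} [Field L]

/-- The residue field of a valuation. -/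
abbrev RF (v : Valuation L ℤᵐ⁰) : Type _ := IsLocalRing.ResidueField v.valuationSubring

/-- The unit of the valuation ring. -/
noncomputable def iu (v : Valuation L ℤᵐ⁰) (a : Lˣ) (ha : v (a : L) = 1) :
    (v.valuationSubring)ˣ where
  val := ⟨a, (v.mem_valuationSubring_iff _).2 ha.le⟩
  inv := ⟨((a⁻¹ : Lˣ) : L), (v.mem_valuationSubring_iff _).2 (by
    rw [Units.val_inv_eq_inv_val, map_inv₀, ha, inv_one])⟩
  val_inv := Subtype.ext (by
    show (a : L) * ((a⁻¹ : Lˣ) : L) = 1
    rw [← Units.val_mul, mul_inv_cancel, Units.val_one])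
  inv_val := Subtype.ext (by
    show ((a⁻¹ : Lˣ) : L) * (a : L) = 1
    rw [← Units.val_mul, inv_mul_cancel, Units.val_one])

/-- The class of a unit in the residue field. -/
noncomputable def ru (v : Valuation L ℤᵐ⁰) (a : Lˣ) (ha : v (a : L) = 1) : (RF v)ˣ :=
  Units.map (IsLocalRing.residue v.valuationSubring : v.valuationSubring →* RF v) (iu v a ha)

theorem ru_val (v : Valuation L ℤᵐ⁰) (a : Lˣ) (ha : v (a : L) = 1) :
    ((ru v a ha : (RF v)ˣ) : RF v) =
      IsLocalRing.residue v.valuationSubring ⟨a, (v.mem_valuationSubring_iff _).2 ha.le⟩ := rfl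

theorem residue_eq_zero {v : Valuation L ℤᵐ⁰} (a : v.valuationSubring) :
    IsLocalRing.residue v.valuationSubring a = 0 ↔ v (a : L) < 1 := by
  rw [IsLocalRing.residue_eq_zero_iff]
  exact v.mem_maximalIdeal_iff

/-- An additive function on the residue field gives a functional. -/
theorem exists_lg_res (v : Valuation L ℤᵐ⁰) (χ : (RF v)ˣ → ℚ)
    (hχ : ∀ a b, χ (a * b) = χ a + χ b) :
    ∃ l : Lg L, (∀ a : Lˣ, v ((a : L) - 1) < 1 → l.toFun a = 0) ∧
      ∀ (a : Lˣ) (ha : v (a : L) = 1), l.toFun a = χ (ru v a ha) := by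
  have hχ1 : χ 1 = 0 := by
    have := hχ 1 1
    rw [one_mul] at this
    linarith
  obtain ⟨ψ, h1, h2⟩ := exists_extend
    (Units.map (v.valuationSubring.subtype : v.valuationSubring →* L))
    (Units.map_injective Subtype.coe_injective)
    (fun w => χ (Units.map (IsLocalRing.residue v.valuationSubring :
      v.valuationSubring →* RF v) w)) (fun a b => by rw [map_mul, hχ])
  have h3 : ∀ (a : Lˣ) (ha : v (a : L) = 1), ψ a = χ (ru v a ha) := by
    intro a ha
    have h4 := h2 (iu v a ha)
    have h5 : Units.map (v.valuationSubring.subtype : v.valuationSubring →* L) (iu v a ha) = a := by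
      apply Units.ext
      rfl
    rw [h5] at h4
    exact h4
  refine ⟨⟨ψ, h1⟩, ?_, h3⟩
  intro a ha
  have ha1 := Pool.Agent.TH826.MK.val_one_of_sub_one ha
  show ψ a = 0
  rw [h3 a ha1]
  have h4 : ru v a ha1 = 1 := by
    apply Units.ext
    rw [ru_val, Units.val_one, ← sub_eq_zero, ← map_one (IsLocalRing.residue v.valuationSubring),
      ← map_sub, residue_eq_zero]
    exact ha
  rw [h4, hχ1]

end Pool.Agent.Helper537_All
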