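import Pool.Agent.Helper537_All.Zpart
set_option autoImplicit false

/-!
Irreducible polynomials above which `z` is a root of unity.
-/

namespace Pool.Agent.Helper537_All

open scoped WithZero
open Polynomial
open Pool.Agent.TH826.MK (KQ symb unitPart Unramified)
open Pool.Agent.TH826.HD
open Pool.Agent.Helper537_Sym

theorem exists_w (u : ℂ) : ∃ ζ : ℂ, ζ ≠ 0 ∧ u = ζ + ζ⁻¹ := by
  obtain ⟨w, hw⟩ := IsAlgClosed.exists_pow_nat_eq (u ^ 2 / 4 - 1) (n := 2) (by norm_num)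
  have h1 : (u / 2 + w) * (u / 2 - w) = 1 := by linear_combination -hw
  have h0 : u / 2 + w ≠ 0 := left_ne_zero_of_mul_eq_one h1
  refine ⟨u / 2 + w, h0, ?_⟩
  have h2 : (u / 2 + w)⁻¹ = u / 2 - w := inv_eq_of_mul_eq_one_right h1
  rw [h2]
  ring

theorem pow_one_of {ζ : ℂ} (h0 : ζ ≠ 0) {n : ℕ} (h : ζ ^ n + ζ⁻¹ ^ n = 2) : ζ ^ n = 1 := by
  have h1 : ζ ^ n * ζ⁻¹ ^ n = 1 := by rw [← mul_pow, mul_inv_cancel₀ h0, one_pow]
  have h2 : (ζ ^ n - 1) ^ 2 = 0 := by linear_combination (ζ ^ n) * h - h1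
  have h3 : ζ ^ n - 1 = 0 := by
    by_contra h4
    exact pow_ne_zero 2 h4 h2
  exact sub_eq_zero.1 h3

theorem sq_aux {K : Type*} [CommRing K] {A B : K} (h : A * B = 1) :
    A + B - 2 = (A - 1) ^ 2 * B := by
  linear_combination (2 - A) * h

variable {F : ℚ[X]} {L : Type*} [Field L] [Algebra (PRing F) L] [IsFractionRing (PRing F) L]

theorem e_comp (P : ℚ[X]) : eP F L (P.comp F) = P.eval₂ (ec (eP F L)) (eP F L F) := by
  rw [← eval_eP (F := F) (L := L) (P.comp F), eval₂_comp, eval_eP]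

theorem e_dickson (n : ℕ) : eP F L ((dickson 1 (1 : ℚ) n).comp F) =
    (zF F L : L) ^ n + ((zF F L)⁻¹ : Lˣ) ^ n := by
  rw [e_comp, ← eval_map, map_dickson, map_one, ← zF_add_inv,
    dickson_one_one_eval_add_inv _ _ (by rw [← Units.val_mul, mul_inv_cancel, Units.val_one])]

theorem not_tb {π : ℚ[X]} (hm : π.Monic) (hi : Irreducible π) (hπ : π ∉ TB F L) :
    ∃ n : ℕ, n ≠ 0 ∧ ∀ α : ℂ, aeval α π = 0 →
      ∃ ζ : ℂ, ζ ≠ 0 ∧ ζ ^ n = 1 ∧ aeval α F = ζ + ζ⁻¹ := by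
  obtain ⟨v, hvs, hv, hvπ⟩ := hval (F := F) (L := L) π hm hi
  have h1 : ¬ ∀ n : ℕ, v ((zF F L : L) ^ n - 1) < 1 → n = 0 := fun h =>
    hπ ⟨hm, hi, v, hvs, hv, hvπ, h⟩
  push Not at h1
  obtain ⟨n, hn, hn0⟩ := h1
  refine ⟨n, hn0, ?_⟩
  have hz := vz_one (ve_le hv hm hvπ F)
  have hdvd : π ∣ (dickson 1 (1 : ℚ) n).comp F - C 2 := by
    rw [← ve_lt_iff hv hm hi hvπ, map_sub, e_dickson]
    have h2 : eP F L (C 2) = 2 := map_ofNat (ec (eP F L)) 2
    have h3 : (zF F L : L) ^ n * ((zF F L)⁻¹ : Lˣ) ^ n = 1 := by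
      rw [← mul_pow, ← Units.val_mul, mul_inv_cancel, Units.val_one, one_pow]
    have h4 : (zF F L : L) ^ n + ((zF F L)⁻¹ : Lˣ) ^ n - eP F L (C 2) =
        ((zF F L : L) ^ n - 1) ^ 2 * ((zF F L)⁻¹ : Lˣ) ^ n := by
      rw [h2]
      exact sq_aux h3
    rw [h4, map_mul, map_pow, map_pow, Units.val_inv_eq_inv_val, map_inv₀, hz, inv_one, one_pow,
      mul_one]
    exact pow_lt_one₀ zero_le hn (by norm_num)
  intro α hα
  obtain ⟨ζ, h0, hζ⟩ := exists_w (aeval α F)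
  refine ⟨ζ, h0, ?_, hζ⟩
  apply pow_one_of h0
  obtain ⟨R, hR⟩ := hdvd
  have h5 := congrArg (aeval α) hR
  rw [map_mul, hα, zero_mul, map_sub, aeval_comp, aeval_C, hζ, aeval_def, ← eval_map,
    map_dickson, map_one, dickson_one_one_eval_add_inv _ _ (mul_inv_cancel₀ h0), sub_eq_zero] at h5
  rw [h5]
  simp

section fam

variable {g : ℕ} {b : Fin (g + 1) → ℚ} {lam : ℚ} {t : ℤ}

theorem sumb_mem (H : Fm b F lam t) :
    ∑ m, sy (zF F L) (pu (eP F L) (X - C (b m))) ∈ Fz F L := by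
  set lu : Lˣ := qc (ec (eP F L)) (Units.mk0 lam H.lam_ne) with hlu
  have h1 : sy (zF F L) (lu * (∏ m, pu (eP F L) (X - C (b m))) * zF F L) = 0 := by
    refine sy_quad H.abs_le ?_
    rw [Units.val_mul, Units.val_mul, Units.coe_prod]
    have h2 : ∏ m, ((pu (eP F L) (X - C (b m)) : Lˣ) : L) = eP F L (∏ m, (X - C (b m))) := by
      rw [map_prod]
      exact Finset.prod_congr rfl fun m _ => pu_val eP_inj (X_sub_C_ne_zero _)
    have h3 : (lu : L) = eP F L (C lam) := rfl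
    have h4 : eP F L F = t + eP F L (C lam) * eP F L (∏ m, (X - C (b m))) := by
      have h6 := congrArg (eP F L) H.eq
      have h7 : eP F L (C (t : ℚ)) = t := map_intCast (ec (eP F L)) t
      rw [map_add, map_mul, h7] at h6
      exact h6
    rw [h2, h3]
    have h5 := zF_quad (F := F) (L := L)
    rw [h4] at h5
    linear_combination -h5
  rw [sy_mul_right, sy_mul_right, sy_self, add_zero, sy_prod_right] at h1
  have h2 : ∑ m, sy (zF F L) (pu (eP F L) (X - C (b m))) = -sy (zF F L) lu := by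
    rw [add_comm] at h1
    exact eq_neg_of_add_eq_zero_left h1
  rw [h2]
  exact Submodule.neg_mem _ (sz_const_mem _)

theorem zb_mem (H : Fm b F lam t) (m : Fin (g + 1)) :
    sy (zF F L) (pu (eP F L) (X - C (b m))) ∈ Fz F L ⊔ Ez F L b := by
  have hek : ∀ k : Fin g, sy (zF F L) (pu (eP F L) (X - C (b k.succ))) -
      sy (zF F L) (pu (eP F L) (X - C (b 0))) ∈ Fz F L ⊔ Ez F L b := fun k =>
    (le_sup_right : Ez F L b ≤ _) (Submodule.subset_span ⟨k, rfl⟩)
  set y : Fin (g + 1) → KQ L 2 := fun m => sy (zF F L) (pu (eP F L) (X - C (b m))) with hy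
  have h0 : y 0 ∈ Fz F L ⊔ Ez F L b := by
    have h1 : ∑ m, y m ∈ Fz F L ⊔ Ez F L b := (le_sup_left : Fz F L ≤ _) (sumb_mem H)
    have h3 : ∑ m, (y m - y 0) ∈ Fz F L ⊔ Ez F L b := by
      refine Submodule.sum_mem _ fun m _ => ?_
      refine Fin.cases ?_ (fun k => ?_) m
      · rw [sub_self]
        exact Submodule.zero_mem _
      · exact hek k
    have h4 : ((g + 1 : ℕ) : ℚ) • y 0 ∈ Fz F L ⊔ Ez F L b := by
      have h5 := Submodule.sub_mem _ h1 h3
      rw [← Finset.sum_sub_distrib] at h5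
      simp only [sub_sub_cancel] at h5
      rw [Finset.sum_const, Finset.card_univ, Fintype.card_fin, ← Nat.cast_smul_eq_nsmul ℚ] at h5
      exact h5
    have h5 : ((g + 1 : ℕ) : ℚ) ≠ 0 := by positivity
    have h6 := Submodule.smul_mem _ ((g + 1 : ℕ) : ℚ)⁻¹ h4
    rwa [smul_smul, inv_mul_cancel₀ h5, one_smul] at h6
  refine Fin.cases h0 (fun k => ?_) m
  have h1 := Submodule.add_mem _ (hek k) h0
  have h2 : y k.succ - y 0 + y 0 = y k.succ := by abel
  show y k.succ ∈ _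
  rw [← h2]
  exact h1

end fam

theorem ve_gt {v : Valuation L ℤᵐ⁰} (hv : ∀ q : ℚ, q ≠ 0 → v (ec (eP F L) q) = 1)
    (hx : 1 < v (eP F L X)) {P : ℚ[X]} (hP : 0 < P.natDegree) : 1 < v (eP F L P) := by
  have hP0 : P ≠ 0 := by
    rintro rfl
    simp at hP
  have h1 : v (eP F L P) = v (eP F L X) ^ P.natDegree := by
    rw [e_eq_sum P, Finset.sum_range_succ]
    have h3 : v (eP F L (C (P.coeff P.natDegree)) * eP F L X ^ P.natDegree) =
        v (eP F L X) ^ P.natDegree := by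
      rw [map_mul, map_pow]
      have := hv _ (leadingCoeff_ne_zero.2 hP0)
      rw [show eP F L (C (P.coeff P.natDegree)) = ec (eP F L) P.leadingCoeff from rfl, this,
        one_mul]
    have h2 : v (∑ i ∈ Finset.range P.natDegree, eP F L (C (P.coeff i)) * eP F L X ^ i) <
        v (eP F L (C (P.coeff P.natDegree)) * eP F L X ^ P.natDegree) := by
      rw [h3]
      refine Valuation.map_sum_lt v ?_ fun i hi => ?_
      · exact pow_ne_zero _ (ne_of_gt (zero_lt_one.trans hx))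
      · rw [map_mul, map_pow]
        calc v (eP F L (C (P.coeff i))) * v (eP F L X) ^ i ≤ 1 * v (eP F L X) ^ i :=
              mul_le_mul_left (vc_le hv _) _
          _ = v (eP F L X) ^ i := one_mul _
          _ < v (eP F L X) ^ P.natDegree := pow_lt_pow_right₀ hx (Finset.mem_range.1 hi)
    rw [Valuation.map_add_eq_of_lt_right v h2, h3]
  rw [h1]
  exact one_lt_pow₀ hx hP.ne'

theorem exists_inf (hF : 0 < F.natDegree) : ∃ v : Valuation L ℤᵐ⁰, Function.Surjective v ∧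
    (∀ q : ℚ, q ≠ 0 → v (ec (eP F L) q) = 1) ∧ ord v (zF F L) ≠ 0 := by
  obtain ⟨v, hvs, hv, hvm⟩ := exists_val_e (F := F) (L := L) (eP F L X)⁻¹ (Or.inr rfl)
  refine ⟨v, hvs, hv, fun h => ?_⟩
  have hz := ord_eq_zero h
  have hx0 : v (eP F L X) ≠ 0 := (Valuation.ne_zero_iff v).2 (e_ne eP_inj X_ne_zero)
  have hx : 1 < v (eP F L X) := by
    rw [map_inv₀] at hvm
    exact (inv_lt_one₀ (zero_lt_iff.2 hx0)).1 hvm
  have h1 := ve_gt hv hx hF
  rw [← zF_add_inv] at h1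
  have h2 : v ((zF F L : L) + ((zF F L)⁻¹ : Lˣ)) ≤ 1 := by
    refine (v.map_add _ _).trans (max_le hz.le ?_)
    rw [Units.val_inv_eq_inv_val, map_inv₀, hz, inv_one]
  exact absurd h1 (not_lt.2 h2)

end Pool.Agent.Helper537_All
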