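import Pool.Agent.Helper537_All.Poly
import Pool.Agent.Helper537_All.Dual
set_option autoImplicit false

/-!
Symbols of polynomials in one variable over `ℚ`: unramified combinations vanish.
-/

namespace Pool.Agent.Helper537_All

open scoped WithZero
open Polynomial
open Pool.Agent.TH826.MK (KQ symb unitPart Unramified)
open Pool.Agent.Helper537_Sym

variable {L : Type*} [Field L] (e : ℚ[X] →+* L)

/-- The space of the symbols of polynomials of degree less than `d`. -/
noncomputable def Md (d : ℕ) : Submodule ℚ (KQ L 2) :=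
  Submodule.span ℚ {s | ∃ P Q : ℚ[X], P ≠ 0 ∧ Q ≠ 0 ∧ P.natDegree < d ∧ Q.natDegree < d ∧
    s = sy (pu e P) (pu e Q)}

variable {e}

theorem md_mem {d : ℕ} {P Q : ℚ[X]} (hP : P ≠ 0) (hQ : Q ≠ 0) (hPd : P.natDegree < d)
    (hQd : Q.natDegree < d) : sy (pu e P) (pu e Q) ∈ Md e d :=
  Submodule.subset_span ⟨P, Q, hP, hQ, hPd, hQd, rfl⟩

theorem md_one (he : Function.Injective e) : Md e 1 = ⊥ := by
  rw [eq_bot_iff]
  unfold Md
  rw [Submodule.span_le]
  rintro _ ⟨P, Q, hP, hQ, hPd, hQd, rfl⟩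
  rw [SetLike.mem_coe, Submodule.mem_bot]
  obtain ⟨p, rfl⟩ := natDegree_eq_zero.1 (Nat.lt_one_iff.1 hPd)
  obtain ⟨q, rfl⟩ := natDegree_eq_zero.1 (Nat.lt_one_iff.1 hQd)
  rw [pu_C he (C_ne_zero.1 hP), pu_C he (C_ne_zero.1 hQ), sy_qc]

theorem md_zero : Md e 0 = ⊥ := by
  rw [eq_bot_iff]
  unfold Md
  rw [Submodule.span_le]
  rintro _ ⟨P, Q, hP, hQ, hPd, hQd, rfl⟩
  exact absurd hPd (Nat.not_lt_zero _)

theorem steinberg_mod (he : Function.Injective e) {d : ℕ} {π g h q r : ℚ[X]} (hπ : π ≠ 0)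
    (hg : g ≠ 0) (hh : h ≠ 0) (hr : r ≠ 0) (hgd : g.natDegree < d) (hhd : h.natDegree < d)
    (hrd : r.natDegree < d) (hqd : q.natDegree < d) (heq : g * h = q * π + r) :
    sy (pu e π) (pu e g) + sy (pu e π) (pu e h) - sy (pu e π) (pu e r) ∈ Md e d := by
  by_cases hq : q = 0
  · rw [hq, zero_mul, zero_add] at heq
    rw [← heq, pu_mul he hg hh, sy_mul_right, sub_self]
    exact Submodule.zero_mem _
  · set a : Lˣ := pu e π
    have h1 : sy (pu e q * a * (pu e g * pu e h)⁻¹) (pu e r * (pu e g * pu e h)⁻¹) = 0 := by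
      apply sy_steinberg
      rw [Units.val_mul (pu e q * a), Units.val_mul (pu e r), ← add_mul,
        Units.val_inv_eq_inv_val, ← div_eq_mul_inv, div_eq_one_iff_eq (Units.ne_zero _),
        Units.val_mul, Units.val_mul, pu_val he hq, pu_val he hπ, pu_val he hr, pu_val he hg,
        pu_val he hh, ← map_mul, ← map_mul, ← map_add, heq]
    simp only [sy_mul_left, sy_mul_right, sy_inv_left, sy_inv_right, mul_inv] at h1
    have hsw : ∀ u v : Lˣ, sy u v = -sy v u := sy_swap
    have e1 : sy a (pu e g) + sy a (pu e h) - sy a (pu e r) =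
        sy (pu e q) (pu e r) + (-sy (pu e q) (pu e g) + -sy (pu e q) (pu e h)) +
          (-sy (pu e g) (pu e r) + - -sy (pu e g) (pu e g) + - -sy (pu e g) (pu e h)) +
          (-sy (pu e h) (pu e r) + - -sy (pu e h) (pu e g) + - -sy (pu e h) (pu e h)) := by
      rw [← sub_eq_zero, ← neg_eq_zero, ← h1]
      abel
    rw [e1]
    have m : ∀ {A B : ℚ[X]}, A ≠ 0 → B ≠ 0 → A.natDegree < d → B.natDegree < d →
        sy (pu e A) (pu e B) ∈ Md e d := fun h1 h2 h3 h4 => md_mem h1 h2 h3 h4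
    refine Submodule.add_mem _ (Submodule.add_mem _ (Submodule.add_mem _ (m hq hr hqd hrd)
      (Submodule.add_mem _ (Submodule.neg_mem _ (m hq hg hqd hgd))
        (Submodule.neg_mem _ (m hq hh hqd hhd)))) ?_) ?_
    · exact Submodule.add_mem _ (Submodule.add_mem _ (Submodule.neg_mem _ (m hg hr hgd hrd))
        (Submodule.neg_mem _ (Submodule.neg_mem _ (m hg hg hgd hgd))))
        (Submodule.neg_mem _ (Submodule.neg_mem _ (m hg hh hgd hhd)))
    · exact Submodule.add_mem _ (Submodule.add_mem _ (Submodule.neg_mem _ (m hh hr hhd hrd))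
        (Submodule.neg_mem _ (Submodule.neg_mem _ (m hh hg hhd hgd))))
        (Submodule.neg_mem _ (Submodule.neg_mem _ (m hh hh hhd hhd)))

end Pool.Agent.Helper537_All
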