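import Pool.Agent.Helper537_All.Tate
set_option autoImplicit false

/-!
Symbols of polynomials in one variable over `ℚ`: generators.
-/

namespace Pool.Agent.Helper537_All

open scoped WithZero
open Polynomial
open Pool.Agent.TH826.MK (KQ symb unitPart Unramified)
open Pool.Agent.Helper537_Sym

variable {L : Type*} [Field L] {e : ℚ[X] →+* L} {d : ℕ}

/-- The monic irreducible polynomials of degree `d`. -/
abbrev Ir (d : ℕ) : Type := {π : ℚ[X] // π.Monic ∧ Irreducible π ∧ π.natDegree = d}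

theorem exists_rep (π : Ir d) (u : (AdjoinRoot π.1)ˣ) :
    ∃ g : ℚ[X], AdjoinRoot.mk π.1 g = u ∧ g ≠ 0 ∧ g.natDegree < d := by
  obtain ⟨π, hm, hi, hd⟩ := π
  have : Fact (Irreducible π) := ⟨hi⟩
  obtain ⟨h, hh⟩ := AdjoinRoot.mk_surjective (u : AdjoinRoot π)
  have h1 : AdjoinRoot.mk π (h %ₘ π) = AdjoinRoot.mk π h := by
    rw [AdjoinRoot.mk_eq_mk]
    refine ⟨-(h /ₘ π), ?_⟩
    have h2 := modByMonic_add_div h π
    linear_combination h2
  refine ⟨h %ₘ π, by rw [h1, hh], ?_, ?_⟩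
  · intro h0
    rw [h0, map_zero, hh] at h1
    exact u.ne_zero h1.symm
  · rw [← hd]
    exact natDegree_modByMonic_lt _ hm (fun h2 => hi.not_isUnit (h2 ▸ isUnit_one))

/-- A representative of small degree. -/
noncomputable def rep (π : Ir d) (u : (AdjoinRoot π.1)ˣ) : ℚ[X] := (exists_rep π u).choose

theorem rep_mk (π : Ir d) (u : (AdjoinRoot π.1)ˣ) : AdjoinRoot.mk π.1 (rep π u) = u :=
  (exists_rep π u).choose_spec.1

theorem rep_ne (π : Ir d) (u : (AdjoinRoot π.1)ˣ) : rep π u ≠ 0 :=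
  (exists_rep π u).choose_spec.2.1

theorem rep_lt (π : Ir d) (u : (AdjoinRoot π.1)ˣ) : (rep π u).natDegree < d :=
  (exists_rep π u).choose_spec.2.2

theorem exists_u (π : Ir d) {g : ℚ[X]} (hg : g ≠ 0) (hgd : g.natDegree < d) :
    ∃ u : (AdjoinRoot π.1)ˣ, rep π u = g := by
  have : Fact (Irreducible π.1) := ⟨π.2.2.1⟩
  have hnd : ∀ h : ℚ[X], h.natDegree < d → π.1 ∣ h → h = 0 := by
    intro h hh hdv
    by_contra hne
    have := natDegree_le_of_dvd hdv hne
    rw [π.2.2.2] at this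
    omega
  have h1 : AdjoinRoot.mk π.1 g ≠ 0 := by
    intro h0
    rw [AdjoinRoot.mk_eq_zero] at h0
    exact hg (hnd g hgd h0)
  refine ⟨Units.mk0 _ h1, ?_⟩
  have h2 := rep_mk π (Units.mk0 _ h1)
  rw [Units.val_mk0, AdjoinRoot.mk_eq_mk] at h2
  have h3 := hnd _ ?_ h2
  · exact sub_eq_zero.1 h3
  · refine (natDegree_sub_le _ _).trans_lt (max_lt (rep_lt _ _) hgd)

/-- The class of the symbol of an irreducible polynomial. -/
noncomputable def Hc (e : ℚ[X] →+* L) (π : Ir d) (u : (AdjoinRoot π.1)ˣ) : KQ L 2 :=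
  sy (pu e π.1) (pu e (rep π u))

theorem hc_mul (he : Function.Injective e) (π : Ir d) (u w : (AdjoinRoot π.1)ˣ) :
    (Md e d).mkQ (Hc e π (u * w)) = (Md e d).mkQ (Hc e π u) + (Md e d).mkQ (Hc e π w) := by
  have h1 : π.1 ∣ rep π u * rep π w - rep π (u * w) := by
    rw [← AdjoinRoot.mk_eq_mk, map_mul, rep_mk, rep_mk, rep_mk, Units.val_mul]
  obtain ⟨q, hq⟩ := h1
  have hd0 : 0 < d := (Nat.zero_le _).trans_lt (rep_lt π u)
  have hu := rep_lt π u
  have hw := rep_lt π w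
  have huw := rep_lt π (u * w)
  have hqd : q.natDegree < d := by
    by_cases hq0 : q = 0
    · rw [hq0, natDegree_zero]
      exact hd0
    · have h2 := congrArg natDegree hq
      rw [natDegree_mul π.2.2.1.ne_zero hq0, π.2.2.2] at h2
      have h3 := natDegree_sub_le (rep π u * rep π w) (rep π (u * w))
      rw [h2, natDegree_mul (rep_ne π u) (rep_ne π w)] at h3
      rcases le_max_iff.1 h3 with h4 | h4 <;> omega
  have h3 := steinberg_mod he π.2.2.1.ne_zero (rep_ne π u) (rep_ne π w) (rep_ne π (u * w)) hu hw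
    huw hqd (q := q) (by linear_combination hq)
  rw [← map_add, ← sub_eq_zero, ← map_sub, Submodule.mkQ_apply, Submodule.Quotient.mk_eq_zero]
  have h4 := Submodule.neg_mem _ h3
  unfold Hc
  convert h4 using 1
  abel

theorem split_deg {P : ℚ[X]} (hd0 : 0 < d) (hP : P ≠ 0) (hPd : P.natDegree ≤ d)
    (he : Function.Injective e) :
    pu e P ∈ Subgroup.closure {x : Lˣ | ∃ A : ℚ[X], A ≠ 0 ∧ A.natDegree < d ∧ x = pu e A} ∨
      ∃ (c : ℚ) (π : Ir d), c ≠ 0 ∧ P = C c * π.1 := by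
  rcases hPd.lt_or_eq with h | h
  · exact Or.inl (Subgroup.subset_closure ⟨P, hP, h, rfl⟩)
  · set c := P.leadingCoeff with hc
    have hc0 : c ≠ 0 := leadingCoeff_ne_zero.2 hP
    set π₀ := C c⁻¹ * P with hπ₀
    have hP2 : P = C c * π₀ := by
      rw [hπ₀, ← mul_assoc, ← C_mul, mul_inv_cancel₀ hc0, C_1, one_mul]
    have hmon : π₀.Monic := by
      rw [Monic, hπ₀, leadingCoeff_mul, leadingCoeff_C, ← hc, inv_mul_cancel₀ hc0]
    have hdeg : π₀.natDegree = d := by
      rw [hπ₀, natDegree_C_mul (inv_ne_zero hc0), h]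
    by_cases hi : Irreducible π₀
    · exact Or.inr ⟨c, ⟨π₀, hmon, hi, hdeg⟩, hc0, hP2⟩
    · left
      rw [irreducible_iff, not_and_or] at hi
      rcases hi with hi | hi
      · exfalso
        rw [not_not] at hi
        have := natDegree_eq_zero_of_isUnit hi
        omega
      · push Not at hi
        obtain ⟨A, B, hAB, hA, hB⟩ := hi
        have hπ0 : π₀ ≠ 0 := hmon.ne_zero
        have hA0 : A ≠ 0 := by rintro rfl; exact hπ0 (by rw [hAB, zero_mul])
        have hB0 : B ≠ 0 := by rintro rfl; exact hπ0 (by rw [hAB, mul_zero])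
        have hs : A.natDegree + B.natDegree = d := by
          rw [← natDegree_mul hA0 hB0, ← hAB, hdeg]
        have hA1 : A.natDegree ≠ 0 := fun h0 => hA (by
          obtain ⟨a, rfl⟩ := natDegree_eq_zero.1 h0
          exact isUnit_C.2 (IsUnit.mk0 a (C_ne_zero.1 hA0)))
        have hB1 : B.natDegree ≠ 0 := fun h0 => hB (by
          obtain ⟨a, rfl⟩ := natDegree_eq_zero.1 h0
          exact isUnit_C.2 (IsUnit.mk0 a (C_ne_zero.1 hB0)))
        rw [hP2, hAB, pu_mul he (C_ne_zero.2 hc0) (mul_ne_zero hA0 hB0), pu_mul he hA0 hB0]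
        refine mul_mem (Subgroup.subset_closure ⟨C c, C_ne_zero.2 hc0, ?_, rfl⟩)
          (mul_mem (Subgroup.subset_closure ⟨A, hA0, by omega, rfl⟩)
            (Subgroup.subset_closure ⟨B, hB0, by omega, rfl⟩))
        rw [natDegree_C]
        exact hd0

theorem closure_mem {M : Submodule ℚ (KQ L 2)} {S : Set Lˣ} {a : Lˣ}
    (h : ∀ x ∈ S, sy a x ∈ M) {u : Lˣ} (hu : u ∈ Subgroup.closure S) : sy a u ∈ M := by
  induction hu using Subgroup.closure_induction with
  | mem x hx => exact h x hx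
  | one => rw [sy_one_right]; exact Submodule.zero_mem _
  | mul x y _ _ hx hy => rw [sy_mul_right]; exact Submodule.add_mem _ hx hy
  | inv x _ hx => rw [sy_inv_right]; exact Submodule.neg_mem _ hx

theorem swap_mem {M : Submodule ℚ (KQ L 2)} {a b : Lˣ} (h : sy a b ∈ M) : sy b a ∈ M := by
  rw [sy_swap]
  exact Submodule.neg_mem _ h

theorem closure_mem' {M : Submodule ℚ (KQ L 2)} {S : Set Lˣ}
    (h : ∀ x ∈ S, ∀ y ∈ S, sy x y ∈ M) {u w : Lˣ} (hu : u ∈ Subgroup.closure S)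
    (hw : w ∈ Subgroup.closure S) : sy u w ∈ M := by
  refine closure_mem (fun y hy => ?_) hw
  refine swap_mem (closure_mem (fun x hx => ?_) hu)
  exact swap_mem (h x hx y hy)

theorem md_succ_le (he : Function.Injective e) (hd0 : 0 < d) :
    Md e (d + 1) ≤ Md e d ⊔ Submodule.span ℚ
      (Set.range fun p : Σ π : Ir d, (AdjoinRoot π.1)ˣ => Hc e p.1 p.2) := by
  set M := Md e d ⊔ Submodule.span ℚ
      (Set.range fun p : Σ π : Ir d, (AdjoinRoot π.1)ˣ => Hc e p.1 p.2) with hM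
  set S : Set Lˣ := {x : Lˣ | ∃ A : ℚ[X], A ≠ 0 ∧ A.natDegree < d ∧ x = pu e A} with hS
  have hMd : Md e d ≤ M := le_sup_left
  have hH : ∀ (π : Ir d) (u : (AdjoinRoot π.1)ˣ), Hc e π u ∈ M := fun π u =>
    (le_sup_right : _ ≤ M) (Submodule.subset_span ⟨⟨π, u⟩, rfl⟩)
  have hSS : ∀ x ∈ S, ∀ y ∈ S, sy x y ∈ M := by
    rintro _ ⟨A, hA, hAd, rfl⟩ _ ⟨B, hB, hBd, rfl⟩
    exact hMd (md_mem hA hB hAd hBd)
  have hπS : ∀ (π : Ir d), ∀ x ∈ S, sy (pu e π.1) x ∈ M := by
    rintro π _ ⟨A, hA, hAd, rfl⟩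
    obtain ⟨u, hu⟩ := exists_u π hA hAd
    have h1 := hH π u
    unfold Hc at h1
    rwa [hu] at h1
  have hππ : ∀ π π' : Ir d, sy (pu e π.1) (pu e π'.1) ∈ M := by
    intro π π'
    by_cases hne : π'.1 = π.1
    · rw [hne, sy_self]
      exact Submodule.zero_mem _
    · set r := π'.1 - π.1 with hr
      have hr0 : r ≠ 0 := sub_ne_zero.2 hne
      have hrd : r.natDegree < d := by
        have h1 : r.degree < π'.1.degree := degree_sub_lt (by
          rw [degree_eq_natDegree π'.2.1.ne_zero, degree_eq_natDegree π.2.1.ne_zero,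
            π'.2.2.2, π.2.2.2]) π'.2.1.ne_zero (by
          rw [π'.2.1.leadingCoeff, π.2.1.leadingCoeff])
        have h2 := natDegree_lt_natDegree hr0 h1
        rwa [π'.2.2.2] at h2
      have hrS : pu e r ∈ S := ⟨r, hr0, hrd, rfl⟩
      have h1 : sy (pu e π.1 * (pu e π'.1)⁻¹) (pu e r * (pu e π'.1)⁻¹) = 0 := by
        apply sy_steinberg
        rw [Units.val_mul, Units.val_mul, ← add_mul, Units.val_inv_eq_inv_val, ← div_eq_mul_inv,
          div_eq_one_iff_eq (Units.ne_zero _), pu_val he π.2.1.ne_zero,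
          pu_val he π'.2.1.ne_zero, pu_val he hr0, ← map_add, hr]
        congr 1
        ring
      rw [sy_mul_left, sy_mul_right, sy_mul_right, sy_inv_left, sy_inv_left, sy_inv_right,
        sy_inv_right, sy_self] at h1
      have h2 : sy (pu e π.1) (pu e π'.1) =
          sy (pu e π.1) (pu e r) - sy (pu e π'.1) (pu e r) := by
        rw [neg_zero, neg_zero, add_zero] at h1
        have h3 : sy (pu e π.1) (pu e π'.1) -
            (sy (pu e π.1) (pu e r) - sy (pu e π'.1) (pu e r)) = 0 := by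
          rw [← neg_eq_zero, ← h1]
          abel
        exact sub_eq_zero.1 h3
      rw [h2]
      exact Submodule.sub_mem _ (hπS π _ hrS) (hπS π' _ hrS)
  have hC : ∀ c : ℚ, c ≠ 0 → pu e (C c) ∈ S := fun c hc =>
    ⟨C c, C_ne_zero.2 hc, by rw [natDegree_C]; exact hd0, rfl⟩
  unfold Md
  rw [Submodule.span_le]
  rintro _ ⟨P, Q, hP, hQ, hPd, hQd, rfl⟩
  rcases split_deg hd0 hP (Nat.lt_succ_iff.1 hPd) he with hPG | ⟨c, π, hc, rfl⟩
  · rcases split_deg hd0 hQ (Nat.lt_succ_iff.1 hQd) he with hQG | ⟨c', π', hc', rfl⟩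
    · exact closure_mem' hSS hPG hQG
    · rw [pu_mul he (C_ne_zero.2 hc') π'.2.1.ne_zero, sy_mul_right]
      exact Submodule.add_mem _ (swap_mem (closure_mem (hSS _ (hC c' hc')) hPG))
        (swap_mem (closure_mem (hπS π') hPG))
  · rw [pu_mul he (C_ne_zero.2 hc) π.2.1.ne_zero, sy_mul_left]
    rcases split_deg hd0 hQ (Nat.lt_succ_iff.1 hQd) he with hQG | ⟨c', π', hc', rfl⟩
    · exact Submodule.add_mem _ (closure_mem (hSS _ (hC c hc)) hQG) (closure_mem (hπS π) hQG)
    · rw [pu_mul he (C_ne_zero.2 hc') π'.2.1.ne_zero, sy_mul_right, sy_mul_right]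
      exact Submodule.add_mem _ (Submodule.add_mem _ (hSS _ (hC c hc) _ (hC c' hc'))
        (swap_mem (hπS π' _ (hC c hc)))) (Submodule.add_mem _ (hπS π _ (hC c' hc')) (hππ π π'))

end Pool.Agent.Helper537_All
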