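import Pool.Agent.Helper537_All.Cyc
import Pool.Agent.Helper537_All.Newton
set_option autoImplicit false

/-!
When is `ζ + ζ⁻¹ - t` a unit above `p`?
-/

namespace Pool.Agent.Helper537_All

open scoped WithZero
open Polynomial

section unit

variable {K : Type*} [Field K] {v : Valuation K ℤᵐ⁰} {p : ℕ}

theorem v_int_one (hp : p.Prime) (hvp : v (p : K) < 1) (hvi : ∀ n : ℤ, v (n : K) ≤ 1) {n : ℤ}
    (h : ¬ (p : ℤ) ∣ n) : v (n : K) = 1 := by
  refine le_antisymm (hvi n) ?_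
  by_contra hlt
  rw [not_le] at hlt
  have h1 : IsCoprime (p : ℤ) n := by
    rw [Int.isCoprime_iff_gcd_eq_one]
    have h2 := (Nat.Prime.coprime_iff_not_dvd hp (n := n.natAbs)).2 (fun h3 => h (by
      rw [← Int.natCast_dvd_natCast] at h3
      exact (Int.dvd_natAbs).1 h3))
    exact h2
  obtain ⟨a, c, hac⟩ := h1
  have h2 : v ((a : K) * (p : K) + (c : K) * (n : K)) < 1 := by
    refine Valuation.map_add_lt v ?_ ?_
    · rw [map_mul, mul_comm]
      exact mul_lt_one_of_lt_of_le hvp (hvi a)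
    · rw [map_mul, mul_comm]
      exact mul_lt_one_of_lt_of_le hlt (hvi c)
  have h3 : (a : K) * (p : K) + (c : K) * (n : K) = 1 := by exact_mod_cast congrArg (Int.cast (R := K)) hac
  rw [h3, map_one] at h2
  exact lt_irrefl _ h2

theorem v_root {ξ : K} {m : ℕ} (hm : m ≠ 0) (h : ξ ^ m = 1) : v ξ = 1 := by
  have h1 := congrArg v h
  rw [map_pow, map_one] at h1
  exact (pow_eq_one_iff_of_nonneg zero_le hm).1 h1

theorem v_pow_sub {ξ : K} (h0 : v ξ ≤ 1) (h : v (ξ - 1) < 1) (n : ℕ) : v (ξ ^ n - 1) < 1 := by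
  rw [← mul_geom_sum, map_mul]
  refine mul_lt_one_of_lt_of_le h ?_
  refine Valuation.map_sum_le v fun i _ => ?_
  rw [map_pow]
  exact pow_le_one' h0 _

theorem pow_eq_one (hp : p.Prime) (hvp : v (p : K) < 1) (hvi : ∀ n : ℤ, v (n : K) ≤ 1)
    {ξ : K} {m : ℕ} (hm : m ≠ 0) (hξ : ξ ^ m = 1) (h : v (ξ - 1) < 1) :
    ∃ a, ξ ^ (p ^ a) = 1 := by
  obtain ⟨a, m', hm', hmm⟩ := Nat.exists_eq_pow_mul_and_not_dvd hm p hp.ne_one
  refine ⟨a, ?_⟩
  have hv0 := v_root (v := v) hm hξ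
  set y : K := ξ ^ (p ^ a) with hy
  have hy1 : y ^ m' = 1 := by rw [hy, ← pow_mul, ← hmm, hξ]
  have hym : v (y - 1) < 1 := v_pow_sub hv0.le h _
  have hy0 : v y ≤ 1 := by rw [hy, map_pow, hv0, one_pow]
  by_contra hne
  have hsum : ∑ i ∈ Finset.range m', y ^ i = 0 := by
    have h1 := mul_geom_sum y m'
    rw [hy1, sub_self] at h1
    exact (mul_eq_zero.1 h1).resolve_left (sub_ne_zero.2 hne)
  have h2 : v (∑ i ∈ Finset.range m', (y ^ i - 1)) < 1 :=
    Valuation.map_sum_lt v one_ne_zero fun i _ => v_pow_sub hy0 hym i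
  rw [Finset.sum_sub_distrib, hsum, zero_sub, Valuation.map_neg, Finset.sum_const,
    Finset.card_range, nsmul_eq_mul, mul_one] at h2
  have h3 := v_int_one hp hvp hvi (n := (m' : ℤ)) (by exact_mod_cast hm')
  rw [Int.cast_natCast] at h3
  exact h2.ne h3

/-- The order of the root of unity belonging to `t`. -/
def n0 (t : ℤ) : ℕ :=
  if t = 2 then 1 else if t = -2 then 2 else if t = -1 then 3 else if t = 0 then 4 else 6

theorem n0_dvd (t : ℤ) : n0 t ∣ 12 := by
  unfold n0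
  split_ifs <;> norm_num

theorem v_n0 {ζ : K} {t : ℤ} (ht : |t| ≤ 2) (h0 : v ζ = 1)
    (h : v (ζ + ζ⁻¹ - t) < 1) : v (ζ ^ n0 t - 1) < 1 := by
  have hz : ζ ≠ 0 := by
    rintro rfl
    rw [map_zero] at h0
    exact zero_ne_one h0
  have h1 : v (ζ ^ 2 - t * ζ + 1) < 1 := by
    have e : ζ ^ 2 - t * ζ + 1 = (ζ + ζ⁻¹ - t) * ζ := by
      field_simp
      ring
    rw [e, map_mul, h0, mul_one]
    exact h
  have hpoly : ∀ y : K, v y ≤ 1 → v ((ζ ^ 2 - t * ζ + 1) * y) < 1 := by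
    intro y hy
    rw [map_mul]
    exact mul_lt_one_of_lt_of_le h1 hy
  have hzn : ∀ n : ℕ, v (ζ ^ n) ≤ 1 := by
    intro n
    rw [map_pow, h0, one_pow]
  have h11 : v (1 : K) ≤ 1 := (map_one v).le
  rw [abs_le] at ht
  obtain ⟨ht1, ht2⟩ := ht
  interval_cases t
  · have e0 : n0 (-2) = 2 := by decide
    rw [e0]
    have h2 : v (ζ + 1) < 1 := by
      have e : ζ ^ 2 - ((-2 : ℤ) : K) * ζ + 1 = (ζ + 1) ^ 2 := by push_cast; ring
      rw [e, map_pow] at h1
      by_contra hn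
      exact absurd h1 (not_lt.2 (one_le_pow₀ (not_lt.1 hn)))
    have e : ζ ^ 2 - 1 = (ζ + 1) * (ζ - 1) := by ring
    rw [e, map_mul]
    exact mul_lt_one_of_lt_of_le h2 ((v.map_sub _ _).trans (max_le h0.le h11))
  · have e0 : n0 (-1) = 3 := by decide
    rw [e0]
    have e : ζ ^ 3 - 1 = (ζ ^ 2 - ((-1 : ℤ) : K) * ζ + 1) * (ζ - 1) := by push_cast; ring
    rw [e]
    exact hpoly _ ((v.map_sub _ _).trans (max_le h0.le h11))
  · have e0 : n0 0 = 4 := by decide
    rw [e0]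
    have e : ζ ^ 4 - 1 = (ζ ^ 2 - ((0 : ℤ) : K) * ζ + 1) * (ζ ^ 2 - 1) := by push_cast; ring
    rw [e]
    exact hpoly _ ((v.map_sub _ _).trans (max_le (hzn 2) h11))
  · have e0 : n0 1 = 6 := by decide
    rw [e0]
    have e : ζ ^ 6 - 1 = (ζ ^ 2 - ((1 : ℤ) : K) * ζ + 1) * ((ζ ^ 3 - 1) * (ζ + 1)) := by
      push_cast; ring
    rw [e]
    refine hpoly _ ?_
    rw [map_mul]
    exact mul_le_one' ((v.map_sub _ _).trans (max_le (hzn 3) h11))
      ((v.map_add _ _).trans (max_le h0.le h11))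
  · have e0 : n0 2 = 1 := by decide
    rw [e0, pow_one]
    have e : ζ ^ 2 - ((2 : ℤ) : K) * ζ + 1 = (ζ - 1) ^ 2 := by push_cast; ring
    rw [e, map_pow] at h1
    by_contra hn
    exact absurd h1 (not_lt.2 (one_le_pow₀ (not_lt.1 hn)))

theorem unit_cond (hp : p.Prime) (hvp : v (p : K) < 1) (hvi : ∀ n : ℤ, v (n : K) ≤ 1)
    {ζ : K} {m : ℕ} (hm : m ≠ 0) (hζ : ζ ^ m = 1) {t : ℤ} (ht : |t| ≤ 2)
    (h : v (ζ + ζ⁻¹ - t) < 1) : ∃ a, ζ ^ (n0 t * p ^ a) = 1 := by
  have h1 := v_n0 ht (v_root hm hζ) h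
  obtain ⟨a, ha⟩ := pow_eq_one hp hvp hvi hm (ξ := ζ ^ n0 t)
    (by rw [← pow_mul, mul_comm, pow_mul, hζ, one_pow]) h1
  exact ⟨a, by rw [pow_mul, ha]⟩

theorem s_int {ζ : K} {t : ℤ} (ht : |t| ≤ 2) (h : ζ ^ n0 t = 1) :
    ∃ c : ℤ, |c| ≤ 4 ∧ ζ + ζ⁻¹ - t = c := by
  have hz : ζ ≠ 0 := by
    rintro rfl
    have hn : n0 t ≠ 0 := by
      intro h0
      have := n0_dvd t
      rw [h0] at this
      norm_num at this
    rw [zero_pow hn] at h
    exact zero_ne_one h
  have quad : ∀ c : ℤ, ζ ^ 2 - c * ζ + 1 = 0 → ζ + ζ⁻¹ = c := by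
    intro c hc
    field_simp
    linear_combination hc
  rw [abs_le] at ht
  obtain ⟨ht1, ht2⟩ := ht
  interval_cases t
  · have e0 : n0 (-2) = 2 := by decide
    rw [e0] at h
    have h1 : (ζ - 1) * (ζ + 1) = 0 := by linear_combination h
    rcases mul_eq_zero.1 h1 with h2 | h2
    · refine ⟨4, by norm_num, ?_⟩
      rw [quad 2 (by push_cast; linear_combination (ζ - 1) * h2)]
      push_cast; norm_num
    · refine ⟨0, by norm_num, ?_⟩
      rw [quad (-2) (by push_cast; linear_combination (ζ + 1) * h2)]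
      push_cast; norm_num
  · have e0 : n0 (-1) = 3 := by decide
    rw [e0] at h
    have h1 : (ζ - 1) * (ζ ^ 2 + ζ + 1) = 0 := by linear_combination h
    rcases mul_eq_zero.1 h1 with h2 | h2
    · refine ⟨3, by norm_num, ?_⟩
      rw [quad 2 (by push_cast; linear_combination (ζ - 1) * h2)]
      push_cast; norm_num
    · refine ⟨0, by norm_num, ?_⟩
      rw [quad (-1) (by push_cast; linear_combination h2)]
      push_cast; norm_num
  · have e0 : n0 0 = 4 := by decide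
    rw [e0] at h
    have h1 : (ζ - 1) * ((ζ + 1) * (ζ ^ 2 + 1)) = 0 := by linear_combination h
    rcases mul_eq_zero.1 h1 with h2 | h2
    · refine ⟨2, by norm_num, ?_⟩
      rw [quad 2 (by push_cast; linear_combination (ζ - 1) * h2)]
      push_cast; norm_num
    · rcases mul_eq_zero.1 h2 with h2 | h2
      · refine ⟨-2, by norm_num, ?_⟩
        rw [quad (-2) (by push_cast; linear_combination (ζ + 1) * h2)]
        push_cast; norm_num
      · refine ⟨0, by norm_num, ?_⟩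
        rw [quad 0 (by push_cast; linear_combination h2)]
        push_cast; norm_num
  · have e0 : n0 1 = 6 := by decide
    rw [e0] at h
    have h1 : (ζ - 1) * ((ζ + 1) * ((ζ ^ 2 + ζ + 1) * (ζ ^ 2 - ζ + 1))) = 0 := by
      linear_combination h
    rcases mul_eq_zero.1 h1 with h2 | h2
    · refine ⟨1, by norm_num, ?_⟩
      rw [quad 2 (by push_cast; linear_combination (ζ - 1) * h2)]
      push_cast; norm_num
    · rcases mul_eq_zero.1 h2 with h2 | h2
      · refine ⟨-3, by norm_num, ?_⟩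
        rw [quad (-2) (by push_cast; linear_combination (ζ + 1) * h2)]
        push_cast; norm_num
      · rcases mul_eq_zero.1 h2 with h2 | h2
        · refine ⟨-2, by norm_num, ?_⟩
          rw [quad (-1) (by push_cast; linear_combination h2)]
          push_cast; norm_num
        · refine ⟨0, by norm_num, ?_⟩
          rw [quad 1 (by push_cast; linear_combination h2)]
          push_cast; norm_num
  · have e0 : n0 2 = 1 := by decide
    rw [e0, pow_one] at h
    refine ⟨0, by norm_num, ?_⟩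
    rw [h]
    push_cast; norm_num

end unit

end Pool.Agent.Helper537_All
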