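import Pool.Agent.Helper537_All.Curve
set_option autoImplicit false

/-!
The unramified combinations of the symbols of `z` and of functions of `x`.
-/

namespace Pool.Agent.Helper537_All

open scoped WithZero
open Polynomial
open Pool.Agent.TH826.MK (KQ symb unitPart Unramified)
open Pool.Agent.TH826.HD
open Pool.Agent.Helper537_Sym

variable {F : ℚ[X]} {L : Type*} [Field L] [Algebra (PRing F) L]

variable (F L) in
/-- The symbols of `z` and a constant. -/
noncomputable def Fz : Submodule ℚ (KQ L 2) := F1 (ec (eP F L)) (fun _ : Unit => zF F L)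

variable (F L) in
/-- The symbols of `z` and `(x - b_k) / (x - b_0)`. -/
noncomputable def Ez {g : ℕ} (b : Fin (g + 1) → ℚ) : Submodule ℚ (KQ L 2) :=
  Submodule.span ℚ (Set.range fun k : Fin g =>
    sy (zF F L) (pu (eP F L) (X - C (b k.succ))) - sy (zF F L) (pu (eP F L) (X - C (b 0))))

variable (F L) in
/-- The irreducible polynomials with a point above them where `z` is not a root of unity. -/
def TB : Set ℚ[X] := {π | π.Monic ∧ Irreducible π ∧ ∃ v : Valuation L ℤᵐ⁰,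
  Function.Surjective v ∧ (∀ q : ℚ, q ≠ 0 → v (ec (eP F L) q) = 1) ∧ v (eP F L π) < 1 ∧
  ∀ n : ℕ, v ((zF F L : L) ^ n - 1) < 1 → n = 0}

variable (F L) in
/-- The symbols of `z` and such a polynomial. -/
noncomputable def Nb : Submodule ℚ (KQ L 2) :=
  Submodule.span ℚ (Set.range fun π : TB F L => sy (zF F L) (pu (eP F L) π.1))

theorem tame_f1z {f : ℚ →+* L} {ι : Type*} {y : ι → Lˣ}
    {v : Valuation L ℤᵐ⁰} (hf : ∀ q : ℚˣ, v (f q) = 1) (l : Lg L)
    (hl : ∀ a : Lˣ, v ((a : L) - 1) < 1 → l.toFun a = 0)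
    (hy : ∀ j, ord v (y j) = 0) {s : KQ L 2} (hs : s ∈ F1 f y) :
    tame v l hl s = 0 := by
  obtain ⟨c, rfl⟩ := hs
  rw [theta_apply, Finsupp.sum, map_sum]
  refine Finset.sum_eq_zero fun j _ => ?_
  rw [Finsupp.linearCombination_apply, Finsupp.sum, map_sum]
  refine Finset.sum_eq_zero fun r _ => ?_
  rw [map_smul, tame_sy, hy, ord_of_one (a := qc f (un r)) (hf (un r))]
  simp

theorem sz_const_mem (q : ℚˣ) : sy (zF F L) (qc (ec (eP F L)) q) ∈ Fz F L :=
  sy_const_mem' (ec (eP F L)) (fun _ : Unit => zF F L) () q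

theorem fz_le {M : Submodule ℚ (KQ L 2)}
    (h : ∀ q : ℚˣ, sy (zF F L) (qc (ec (eP F L)) q) ∈ M) : Fz F L ≤ M := by
  rintro _ ⟨c, rfl⟩
  rw [theta_apply, Finsupp.sum]
  refine Submodule.sum_mem _ fun j _ => ?_
  rw [Finsupp.linearCombination_apply, Finsupp.sum]
  refine Submodule.sum_mem _ fun r _ => Submodule.smul_mem _ _ ?_
  exact swap_mem (h _)

variable [IsFractionRing (PRing F) L]

theorem vz_one {v : Valuation L ℤᵐ⁰} (h : v (eP F L F) ≤ 1) : v (zF F L : L) = 1 := by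
  have h1 := zF_add_inv (F := F) (L := L)
  have h0 : v (zF F L : L) ≠ 0 := v_ne v _
  have hi : v (((zF F L)⁻¹ : Lˣ) : L) = (v (zF F L : L))⁻¹ := by
    rw [Units.val_inv_eq_inv_val, map_inv₀]
  rcases lt_trichotomy (v (zF F L : L)) 1 with hz | hz | hz
  · exfalso
    have h2 : 1 < v (((zF F L)⁻¹ : Lˣ) : L) := by
      rw [hi]
      exact (one_lt_inv₀ (zero_lt_iff.2 h0)).2 hz
    have h3 : v (eP F L F) = v (((zF F L)⁻¹ : Lˣ) : L) := by
      rw [← h1]
      exact Valuation.map_add_eq_of_lt_right v (hz.trans h2)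
    rw [h3] at h
    exact absurd h2 (not_lt.2 h)
  · exact hz
  · exfalso
    have h2 : v (((zF F L)⁻¹ : Lˣ) : L) < 1 := by
      rw [hi]
      exact inv_lt_one_of_one_lt₀ hz
    have h3 : v (eP F L F) = v (zF F L : L) := by
      rw [← h1]
      exact Valuation.map_add_eq_of_lt_left v (h2.trans hz)
    rw [h3] at h
    exact absurd hz (not_lt.2 h)

theorem exists_lg_tb (π : TB F L) : ∃ (v : Valuation L ℤᵐ⁰) (l : Lg L),
    Function.Surjective v ∧ (∀ q : ℚ, q ≠ 0 → v (ec (eP F L) q) = 1) ∧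
    ∃ _ : ∀ a : Lˣ, v ((a : L) - 1) < 1 → l.toFun a = 0,
    l.toFun (zF F L) = 1 ∧ ord v (zF F L) = 0 ∧
    ord v (pu (eP F L) π.1) ≠ 0 ∧ ∀ π' : TB F L, π' ≠ π → ord v (pu (eP F L) π'.1) = 0 := by
  obtain ⟨π, hm, hi, v, hvs, hv, hvπ, hn⟩ := π
  have hz := vz_one (ve_le hv hm hvπ F)
  obtain ⟨ψ, h1, h2⟩ := exists_detect (ru v (zF F L) hz) (by
    intro n h
    apply hn
    have h3 := congrArg (fun u : (RF v)ˣ => (u : RF v)) h
    rw [Units.val_pow_eq_pow_val, Units.val_one, ru_val, ← map_pow,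
      ← map_one (IsLocalRing.residue v.valuationSubring), ← sub_eq_zero, ← map_sub,
      residue_eq_zero] at h3
    exact h3)
  obtain ⟨l, h3, h4⟩ := exists_lg_res v ψ h1
  refine ⟨v, l, hvs, hv, h3, ?_, ord_of_one hz, ?_, ?_⟩
  · rw [h4 _ hz, h2]
  · intro h5
    have h6 := ord_eq_zero h5
    rw [pu_val eP_inj hm.ne_zero] at h6
    exact hvπ.ne h6
  · rintro ⟨π', hm', hi', _⟩ hne
    refine ord_of_one ?_
    rw [pu_val eP_inj hm'.ne_zero]
    refine ve_one hv hm hi hvπ fun hd => hne ?_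
    have h5 := hi.associated_of_dvd hi' hd
    exact (Subtype.ext (eq_of_monic_of_associated hm hm' h5)).symm

/-- The unramified part of the symbols with entry `z`. -/
theorem z_part {g : ℕ} {b : Fin (g + 1) → ℚ} (hE : Ez F L b ≤ Unramified L 2)
    (hinf : ∃ v : Valuation L ℤᵐ⁰, Function.Surjective v ∧
      (∀ q : ℚ, q ≠ 0 → v (ec (eP F L) q) = 1) ∧ ord v (zF F L) ≠ 0)
    {s : KQ L 2} (hs : s ∈ Fz F L ⊔ (Nb F L ⊔ Ez F L b)) (hu : s ∈ Unramified L 2) :
    s ∈ Ez F L b := by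
  obtain ⟨s₁, h3, s', h4, h5⟩ := Submodule.mem_sup.1 hs
  obtain ⟨s₂, h6, s₃, h7, h8⟩ := Submodule.mem_sup.1 h4
  obtain ⟨a, ha⟩ := Finsupp.mem_span_range_iff_exists_finsupp.1 h6
  have ha0 : a = 0 := by
    ext c
    obtain ⟨v, l, hv, hq, hl, hlz, hz, hc, hd⟩ := exists_lg_tb c
    have e1 := tame_unramified hv l hl hu
    rw [← h5, ← h8, map_add, map_add,
      tame_f1z (fun q : ℚˣ => hq q q.ne_zero) l hl (fun _ => hz) h3,
      tame_unramified hv l hl (hE h7), zero_add, add_zero, ← ha, Finsupp.sum, map_sum] at e1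
    have e2 : ∀ d : TB F L, tame v l hl (a d • sy (zF F L) (pu (eP F L) d.1)) =
        a d * ord v (pu (eP F L) d.1) := by
      intro d
      rw [map_smul, tame_sy, hlz, hz]
      simp
    rw [Finset.sum_congr rfl fun d _ => e2 d] at e1
    by_cases hcs : c ∈ a.support
    · rw [Finset.sum_eq_single_of_mem c hcs] at e1
      · exact (mul_eq_zero.1 e1).resolve_right (Int.cast_ne_zero.2 hc)
      · intro d _ hdc
        rw [hd d hdc, Int.cast_zero, mul_zero]
    · exact Finsupp.notMem_support_iff.1 hcs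
  have hs2 : s₂ = 0 := by rw [← ha, ha0, Finsupp.sum_zero_index]
  rw [hs2, zero_add] at h8
  have h9 : s₁ ∈ Unramified L 2 := by
    have e : s₁ = s - s₃ := by rw [← h5, h8]; abel
    rw [e]
    exact Submodule.sub_mem _ hu (hE h7)
  have h10 : s₁ = 0 := by
    refine f1_inf_unramified (ec (eP F L)) (fun _ : Unit => zF F L) (fun c hc => ?_) h3 h9
    obtain ⟨v, hv, hq, ho⟩ := hinf
    have h11 := hc v hv fun q => hq q q.ne_zero
    by_contra hne
    obtain ⟨j, hj⟩ := Finsupp.support_nonempty_iff.2 hne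
    rw [Finsupp.sum, Finset.sum_eq_single_of_mem j hj (fun k _ hk => absurd rfl hk)] at h11
    rcases mul_eq_zero.1 h11 with h12 | h12
    · exact Finsupp.mem_support_iff.1 hj h12
    · exact ho (by exact_mod_cast h12)
  rw [← h5, h10, zero_add, ← h8]
  exact h7

theorem zpoly_mem {M : Submodule ℚ (KQ L 2)} (hM : Fz F L ≤ M) (n : ℕ) : ∀ P : ℚ[X], P ≠ 0 →
    P.natDegree = n → (∀ π : ℚ[X], π.Monic → Irreducible π → π ∣ P →
      sy (zF F L) (pu (eP F L) π) ∈ M) → sy (zF F L) (pu (eP F L) P) ∈ M := by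
  induction n using Nat.strong_induction_on with
  | _ n ih =>
    intro P hP hn h
    by_cases hu : IsUnit P
    · obtain ⟨c, hc, rfl⟩ := isUnit_iff.1 hu
      rw [pu_C eP_inj hc.ne_zero]
      exact hM (sz_const_mem _)
    · obtain ⟨π, hm, hi, Q, rfl⟩ := exists_monic_irreducible_factor P hu
      have hQ : Q ≠ 0 := right_ne_zero_of_mul hP
      rw [pu_mul eP_inj hm.ne_zero hQ, sy_mul_right]
      refine Submodule.add_mem _ (h π hm hi (dvd_mul_right _ _)) ?_
      refine ih Q.natDegree ?_ Q hQ rfl fun π' hm' hi' hd => h π' hm' hi' (hd.mul_left _)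
      rw [natDegree_mul hm.ne_zero hQ] at hn
      have := hi.natDegree_pos
      omega

variable (F L) in
/-- The symbols of polynomials. -/
noncomputable def Bs : Submodule ℚ (KQ L 2) :=
  Submodule.span ℚ {s | ∃ P Q : ℚ[X], P ≠ 0 ∧ Q ≠ 0 ∧ s = sy (pu (eP F L) P) (pu (eP F L) Q)}

omit [IsFractionRing (PRing F) L] in
theorem md_mono {e : ℚ[X] →+* L} {d d' : ℕ} (h : d ≤ d') : Md e d ≤ Md e d' := by
  unfold Md
  refine Submodule.span_mono ?_
  rintro _ ⟨P, Q, hP, hQ, hPd, hQd, rfl⟩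
  exact ⟨P, Q, hP, hQ, hPd.trans_le h, hQd.trans_le h, rfl⟩

omit [IsFractionRing (PRing F) L] in
theorem bs_md {s : KQ L 2} (hs : s ∈ Bs F L) : ∃ d, s ∈ Md (eP F L) d := by
  unfold Bs at hs
  induction hs using Submodule.span_induction with
  | mem x hx =>
    obtain ⟨P, Q, hP, hQ, rfl⟩ := hx
    exact ⟨max P.natDegree Q.natDegree + 1, md_mem hP hQ
      (Nat.lt_succ_of_le (le_max_left _ _)) (Nat.lt_succ_of_le (le_max_right _ _))⟩
  | zero => exact ⟨0, Submodule.zero_mem _⟩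
  | add x y _ _ hx hy =>
    obtain ⟨d, hd⟩ := hx
    obtain ⟨d', hd'⟩ := hy
    exact ⟨max d d', Submodule.add_mem _ (md_mono (le_max_left _ _) hd)
      (md_mono (le_max_right _ _) hd')⟩
  | smul a x _ hx =>
    obtain ⟨d, hd⟩ := hx
    exact ⟨d, Submodule.smul_mem _ _ hd⟩

theorem sig_bs {s : KQ L 2} (hs : s ∈ Bs F L) : KQ.map 2 (sig F L) s = s := by
  unfold Bs at hs
  induction hs using Submodule.span_induction with
  | mem x hx =>
    obtain ⟨P, Q, hP, hQ, rfl⟩ := hx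
    rw [map_sy', sig_pu hP, sig_pu hQ]
  | zero => rw [map_zero]
  | add x y _ _ hx hy => rw [map_add, hx, hy]
  | smul a x _ hx => rw [map_smul, hx]

variable (F L) in
/-- The symbols of `z` and a polynomial with the property `Q`. -/
noncomputable def Zq (Q : ℚ[X] → Prop) : Submodule ℚ (KQ L 2) :=
  Submodule.span ℚ {s | ∃ P : ℚ[X], P ≠ 0 ∧ Q P ∧ s = sy (zF F L) (pu (eP F L) P)}

theorem sig_zq {Q : ℚ[X] → Prop} {s : KQ L 2} (hs : s ∈ Zq F L Q) :
    KQ.map 2 (sig F L) s = -s := by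
  unfold Zq at hs
  induction hs using Submodule.span_induction with
  | mem x hx =>
    obtain ⟨P, hP, _, rfl⟩ := hx
    rw [map_sy', sig_pu hP, sig_zu, sy_inv_left]
  | zero => rw [map_zero, neg_zero]
  | add x y _ _ hx hy => rw [map_add, hx, hy, neg_add]
  | smul a x _ hx => rw [map_smul, hx, smul_neg]

variable (F L) in
/-- The group generated by `z` and the polynomials in `x` with the property `Q`. -/
def Gr (Q : ℚ[X] → Prop) : Subgroup Lˣ :=
  Subgroup.closure ({zF F L} ∪ {u : Lˣ | ∃ P : ℚ[X], Q P ∧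
    (u : L) = algebraMap (PRing F) L (ppol F P)})

variable (F L) in
/-- The classes of the symbols of elements of this group which are unramified at all discrete
valuations of `L`. -/
noncomputable def ClsG (Q : ℚ[X] → Prop) : Submodule ℚ (KQ L 2) :=
  Submodule.span ℚ {s | ∃ u ∈ Gr F L Q, ∃ w ∈ Gr F L Q, s = symb ![u, w]} ⊓ Unramified L 2

theorem span_le {Q : ℚ[X] → Prop} :
    Submodule.span ℚ {s : KQ L 2 | ∃ u ∈ Gr F L Q, ∃ w ∈ Gr F L Q, s = symb ![u, w]} ≤
      Zq F L Q ⊔ Bs F L := by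
  rw [Submodule.span_le]
  rintro _ ⟨u, hu, w, hw, rfl⟩
  have hpu : ∀ (x : Lˣ) (P : ℚ[X]), (x : L) = algebraMap (PRing F) L (ppol F P) →
      P ≠ 0 ∧ x = pu (eP F L) P := by
    intro x P hx
    have hP : P ≠ 0 := by
      rintro rfl
      rw [map_zero, map_zero] at hx
      exact x.ne_zero hx
    refine ⟨hP, Units.ext ?_⟩
    rw [pu_val eP_inj hP, hx]
    rfl
  refine closure_mem' (fun x hx y hy => ?_) hu hw
  rcases hx with hx | ⟨P, hP, hx⟩
  · rcases hy with hy | ⟨P', hP', hy⟩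
    · rw [Set.mem_singleton_iff] at hx hy
      rw [hx, hy, sy_self]
      exact Submodule.zero_mem _
    · rw [Set.mem_singleton_iff] at hx
      obtain ⟨h1, h2⟩ := hpu y P' hy
      rw [hx, h2]
      exact (le_sup_left : Zq F L Q ≤ _) (Submodule.subset_span ⟨P', h1, hP', rfl⟩)
  · obtain ⟨h1, h2⟩ := hpu x P hx
    rcases hy with hy | ⟨P', hP', hy⟩
    · rw [Set.mem_singleton_iff] at hy
      rw [hy, h2]
      refine swap_mem ?_
      exact (le_sup_left : Zq F L Q ≤ _) (Submodule.subset_span ⟨P, h1, hP, rfl⟩)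
    · obtain ⟨h3, h4⟩ := hpu y P' hy
      rw [h2, h4]
      exact (le_sup_right : Bs F L ≤ _) (Submodule.subset_span ⟨P, P', h1, h3, rfl⟩)

/-- The space of the unramified classes. -/
theorem cls_eq {g : ℕ} {b : Fin (g + 1) → ℚ} {Q : ℚ[X] → Prop}
    (hE : Ez F L b ≤ Unramified L 2)
    (hinf : ∃ v : Valuation L ℤᵐ⁰, Function.Surjective v ∧
      (∀ q : ℚ, q ≠ 0 → v (ec (eP F L) q) = 1) ∧ ord v (zF F L) ≠ 0)
    (hQb : ∀ i, Q (X - C (b i)))
    (hQ : ∀ P : ℚ[X], P ≠ 0 → Q P → ∀ π : ℚ[X], π.Monic → Irreducible π → π ∣ P →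
      sy (zF F L) (pu (eP F L) π) ∈ Fz F L ⊔ (Nb F L ⊔ Ez F L b)) :
    ClsG F L Q = Ez F L b := by
  refine le_antisymm ?_ (le_inf ?_ hE)
  · rintro s ⟨h1, h2⟩
    obtain ⟨ζ, hζ, β, hβ, hs⟩ := Submodule.mem_sup.1 (span_le h1)
    have hβ0 : β = 0 := by
      have h3 := sig_unr (F := F) h2
      have h4 : KQ.map 2 (sig F L) s = -ζ + β := by
        rw [← hs, map_add, sig_zq hζ, sig_bs hβ]
      rw [h4] at h3
      have h5 := Submodule.add_mem _ h2 h3
      have h6 : s + (-ζ + β) = (2 : ℚ) • β := by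
        rw [← hs, two_smul]
        abel
      rw [h6] at h5
      have h7 : β ∈ Unramified L 2 := by
        have h8 := Submodule.smul_mem _ (2 : ℚ)⁻¹ h5
        rwa [smul_smul, inv_mul_cancel₀ two_ne_zero, one_smul] at h8
      obtain ⟨d, hd⟩ := bs_md hβ
      exact md_unr eP_inj (fun π => hval π) d β hd h7
    rw [hβ0, add_zero] at hs
    rw [← hs] at h2 ⊢
    refine z_part hE hinf ?_ h2
    have h9 : Zq F L Q ≤ Fz F L ⊔ (Nb F L ⊔ Ez F L b) := by
      unfold Zq
      rw [Submodule.span_le]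
      rintro _ ⟨P, hP, hQP, rfl⟩
      exact zpoly_mem le_sup_left _ P hP rfl (hQ P hP hQP)
    exact h9 hζ
  · unfold Ez
    rw [Submodule.span_le]
    rintro _ ⟨k, rfl⟩
    have hz : zF F L ∈ Gr F L Q := Subgroup.subset_closure (Or.inl rfl)
    have hb : ∀ i, pu (eP F L) (X - C (b i)) ∈ Gr F L Q := fun i =>
      Subgroup.subset_closure (Or.inr ⟨X - C (b i), hQb i, by
        rw [pu_val eP_inj (X_sub_C_ne_zero _)]
        rfl⟩)
    exact Submodule.sub_mem _ (Submodule.subset_span ⟨_, hz, _, hb _, rfl⟩)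
      (Submodule.subset_span ⟨_, hz, _, hb _, rfl⟩)

end Pool.Agent.Helper537_All
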